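import Pool.Agent.P.MP_7e54d7_co.Prob

/-!
# The blocking lemma and the cut lemma
-/

open Finset Function
open scoped BigOperators

namespace Pool.Agent.P.MP_7e54d7_co

/-- A Bonferroni inequality. -/
lemma bonferroni {ε U : Type*} [DecidableEq U] (E : Finset ε) (A : ε → Finset U) :
    2 * (∑ e ∈ E, (#(A e) : ℝ)) - ∑ e ∈ E, ∑ e' ∈ E, (#(A e ∩ A e') : ℝ) ≤ #(E.biUnion A) := by
  have h1 : ∀ e ∈ E, (#(A e) : ℝ) = ∑ u ∈ E.biUnion A, if u ∈ A e then (1 : ℝ) else 0 := by
    intro e he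
    rw [← sum_filter, sum_const, nsmul_eq_mul, mul_one]
    congr 2
    ext u
    simp only [mem_filter, mem_biUnion]
    exact ⟨fun h => ⟨⟨e, he, h⟩, h⟩, fun h => h.2⟩
  have h2 : ∀ e ∈ E, ∀ e' ∈ E, (#(A e ∩ A e') : ℝ) = ∑ u ∈ E.biUnion A,
      (if u ∈ A e then (1 : ℝ) else 0) * (if u ∈ A e' then (1 : ℝ) else 0) := by
    intro e he e' _
    have : ∀ u, (if u ∈ A e then (1 : ℝ) else 0) * (if u ∈ A e' then (1 : ℝ) else 0) =
        if u ∈ A e ∩ A e' then (1 : ℝ) else 0 := by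
      intro u
      by_cases h : u ∈ A e <;> by_cases h' : u ∈ A e' <;> simp [h, h']
    simp only [this]
    rw [← sum_filter, sum_const, nsmul_eq_mul, mul_one]
    congr 2
    ext u
    simp only [mem_filter, mem_biUnion, mem_inter]
    exact ⟨fun h => ⟨⟨e, he, h.1⟩, h⟩, fun h => h.2⟩
  rw [sum_congr rfl h1, sum_congr rfl fun e he => sum_congr rfl (h2 e he), sum_comm]
  have h3 : ∑ e ∈ E, ∑ e' ∈ E, ∑ u ∈ E.biUnion A,
      (if u ∈ A e then (1 : ℝ) else 0) * (if u ∈ A e' then (1 : ℝ) else 0) =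
      ∑ u ∈ E.biUnion A, (∑ e ∈ E, if u ∈ A e then (1 : ℝ) else 0) ^ 2 := by
    simp only [sq, sum_mul_sum]
    rw [sum_comm]
    conv_lhs => arg 2; ext e'; rw [sum_comm]
    rw [sum_comm]
    refine sum_congr rfl fun u _ => ?_
    rw [sum_comm]
  rw [h3, mul_sum, ← sum_sub_distrib, card_eq_sum_ones, Nat.cast_sum]
  refine sum_le_sum fun u _ => ?_
  push_cast
  nlinarith [sq_nonneg ((∑ e ∈ E, if u ∈ A e then (1 : ℝ) else 0) - 1)]

/-- The number of pairs with the same image is the sum of the squared fibre sizes. -/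
lemma card_pairs_eq_sum_sq {ε ι : Type*} [Fintype ι] [DecidableEq ι] (E : Finset ε) (φ : ε → ι) :
    #{ee ∈ E ×ˢ E | φ ee.1 = φ ee.2} = ∑ x, #{e ∈ E | φ e = x} ^ 2 := by
  rw [card_eq_sum_card_fiberwise (f := fun ee : ε × ε => φ ee.1) (t := univ) (by simp)]
  refine sum_congr rfl fun x _ => ?_
  rw [sq, ← card_product]
  congr 1
  ext ⟨e, e'⟩
  simp only [mem_filter, mem_product]
  constructor
  · rintro ⟨⟨⟨h1, h2⟩, h3⟩, h4⟩
    exact ⟨⟨h1, h4⟩, h2, h3 ▸ h4⟩
  · rintro ⟨⟨h1, h4⟩, h2, h3⟩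
    exact ⟨⟨⟨h1, h2⟩, h4.trans h3.symm⟩, h4⟩

section Blocking

variable {ι Ω ε : Type*} [Fintype ι] [DecidableEq ι] [Fintype Ω] [DecidableEq Ω] [Nonempty Ω]

open Classical in
/-- The set of (leaf, position) pairs forbidden by the edge `e` when the centres are at `ω`. -/
noncomputable def tgt (cen lf : ε → ι) (Rel : ε → Ω → Ω → Prop) (ω : ι → Ω) (e : ε) :
    Finset (ι × Ω) :=
  (univ.filter fun b => Rel e (ω (cen e)) b).image fun b => (lf e, b)

omit [Fintype ι] [Nonempty Ω] in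
lemma mem_tgt {cen lf : ε → ι} {Rel : ε → Ω → Ω → Prop} {ω : ι → Ω} {e : ε} {u : ι × Ω} :
    u ∈ tgt cen lf Rel ω e ↔ u.1 = lf e ∧ Rel e (ω (cen e)) u.2 := by
  classical
  simp only [tgt, mem_image, mem_filter, mem_univ, true_and]
  constructor
  · rintro ⟨b, hb, rfl⟩; exact ⟨rfl, hb⟩
  · rintro ⟨h1, h2⟩; exact ⟨u.2, h2, by rw [← h1]⟩

theorem blocking (E : Finset ε) (cen lf : ε → ι) (C : Finset ι) (hc : ∀ e ∈ E, cen e ∈ C)
    (hl : ∀ e ∈ E, lf e ∉ C) (Rel : ε → Ω → Ω → Prop)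
    (h1 : ∀ e ∈ E, ∀ a b b', Rel e a b → Rel e a b' → b = b')
    (h1' : ∀ e ∈ E, ∀ a a' b, Rel e a b → Rel e a' b → a = a')
    (h2 : ∀ e ∈ E, ∃ B : Finset (Ω × Ω), (∀ q ∈ B, Rel e q.1 q.2) ∧ Fintype.card Ω ≤ 4 * #B)
    (h3 : ∀ e ∈ E, ∀ e' ∈ E, e ≠ e' → cen e = cen e' → lf e = lf e' →
      ∀ a b, Rel e a b → ¬ Rel e' a b)
    (Sl Sc : ℝ) (hSl : (#{ee ∈ E ×ˢ E | lf ee.1 = lf ee.2} : ℝ) ≤ Sl)
    (hSc : (#{ee ∈ E ×ˢ E | cen ee.1 = cen ee.2} : ℝ) ≤ Sc)
    (A : Finset (ι → Ω)) (hA : ∀ ξ ∈ A, ∀ e ∈ E, ¬ Rel e (ξ (cen e)) (ξ (lf e))) :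
    (#A : ℝ) ≤ Fintype.card (ι → Ω) * Real.exp (-((#E : ℝ) / (4 * (Fintype.card Ω : ℝ))) +
      Sl / (Fintype.card Ω : ℝ) ^ 2 + Sc / (2 * (Fintype.card Ω : ℝ) ^ 2)) := by
  classical
  set w : ℝ := (Fintype.card Ω : ℝ) with hw
  have hw0 : 0 < w := by rw [hw]; exact_mod_cast Fintype.card_pos
  have hN0 : (0 : ℝ) < Fintype.card (ι → Ω) := by exact_mod_cast Fintype.card_pos
  let U : (ι → Ω) → Finset (ι × Ω) := fun ω => E.biUnion (tgt cen lf Rel ω)
  have htgt1 : ∀ ω, ∀ e ∈ E, #(tgt cen lf Rel ω e) ≤ 1 := by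
    intro ω e he
    rw [card_le_one]
    intro u hu u' hu'
    rw [mem_tgt] at hu hu'
    exact Prod.ext (hu.1.trans hu'.1.symm) (h1 e he _ _ _ hu.2 hu'.2)
  -- step 1
  have step1 : ∀ ω : ι → Ω, 𝔼 ω' : ι → Ω, (if C.piecewise ω ω' ∈ A then (1 : ℝ) else 0) ≤
      Real.exp (-(#(U ω) / w)) := by
    intro ω
    let Tg : ι → Finset Ω := fun y => univ.filter fun b => (y, b) ∈ U ω
    have hsub : (univ.filter fun ω' : ι → Ω => C.piecewise ω ω' ∈ A) ⊆
        Fintype.piFinset fun y => (Tg y)ᶜ := by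
      intro ω' hω'
      rw [mem_filter] at hω'
      rw [Fintype.mem_piFinset]
      intro y
      simp only [Tg, U, mem_compl, mem_filter, mem_univ, true_and, mem_biUnion, mem_tgt]
      rintro ⟨e, he, rfl, hr⟩
      apply hA _ hω'.2 e he
      rwa [piecewise_eq_of_mem _ _ _ (hc e he), piecewise_eq_of_notMem _ _ _ (hl e he)]
    have hU : (#(U ω) : ℝ) = ∑ y, (#(Tg y) : ℝ) := by
      rw [card_eq_sum_card_fiberwise (f := Prod.fst) (t := univ) (by simp), Nat.cast_sum]
      refine sum_congr rfl fun y _ => ?_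
      congr 1
      refine card_bij (fun u _ => u.2) ?_ ?_ ?_
      · rintro ⟨y', b⟩ hu
        simp only [mem_filter] at hu
        obtain ⟨hu, rfl⟩ := hu
        simpa [Tg] using hu
      · rintro ⟨y1, b1⟩ hu1 ⟨y2, b2⟩ hu2 h
        simp only [mem_filter] at hu1 hu2 h
        rw [hu1.2.trans hu2.2.symm, h]
      · intro b hb
        exact ⟨(y, b), by simpa [Tg] using hb, rfl⟩
    rw [Fintype.expect_eq_sum_div_card, ← sum_filter, sum_const, nsmul_eq_mul, mul_one,
      div_le_iff₀ hN0]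
    calc (#(univ.filter fun ω' : ι → Ω => C.piecewise ω ω' ∈ A) : ℝ)
        ≤ #(Fintype.piFinset fun y => (Tg y)ᶜ) := by exact_mod_cast card_le_card hsub
      _ = ∏ y, (w - #(Tg y)) := by
          rw [Fintype.card_piFinset, Nat.cast_prod]
          refine prod_congr rfl fun y _ => ?_
          rw [card_compl, Nat.cast_sub (card_le_univ _)]
      _ ≤ ∏ y, (Real.exp (-(#(Tg y) / w)) * w) := by
          refine prod_le_prod (fun y _ => ?_) fun y _ => ?_
          · rw [sub_nonneg, hw]; exact_mod_cast card_le_univ _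
          · have := Real.add_one_le_exp (-(#(Tg y) / w))
            have e : w - #(Tg y) = (-(#(Tg y) / w) + 1) * w := by field_simp; ring
            rw [e]
            exact mul_le_mul_of_nonneg_right this hw0.le
      _ = Real.exp (-(#(U ω) / w)) * Fintype.card (ι → Ω) := by
          rw [prod_mul_distrib, ← Real.exp_sum, hU, sum_div, sum_neg_distrib, prod_const,
            Fintype.card_fun, Nat.cast_pow, card_univ]
  -- step 2: bounded differences
  let dc : ι → ℝ := fun x => #{e ∈ E | cen e = x}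
  have step2 : ∀ x ω a b, (#(U (update ω x a)) : ℝ) ≤ #(U (update ω x b)) + dc x := by
    intro x ω a b
    have hsub : U (update ω x a) ⊆ U (update ω x b) ∪
        ({e ∈ E | cen e = x} : Finset ε).biUnion (tgt cen lf Rel (update ω x a)) := by
      intro u hu
      simp only [U, mem_biUnion, mem_union, mem_filter] at hu ⊢
      obtain ⟨e, he, hu⟩ := hu
      by_cases hx : cen e = x
      · exact Or.inr ⟨e, ⟨he, hx⟩, hu⟩
      · refine Or.inl ⟨e, he, ?_⟩
        rw [mem_tgt, update_of_ne hx] at hu ⊢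
        exact hu
    have h := (card_le_card hsub).trans (card_union_le _ _)
    have h' : #(({e ∈ E | cen e = x} : Finset ε).biUnion (tgt cen lf Rel (update ω x a))) ≤
        #{e ∈ E | cen e = x} := by
      refine card_biUnion_le.trans ?_
      rw [card_eq_sum_ones]
      exact sum_le_sum fun e he => htgt1 _ e (mem_filter.1 he).1
    simp only [dc]
    exact_mod_cast h.trans (Nat.add_le_add_left h' _)
  have hmc := mcdiarmid (fun ω : ι → Ω => (#(U ω) : ℝ) / w) (fun x => dc x / w) (by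
    intro x ω a b
    rw [← sub_div, abs_div, abs_of_pos hw0]
    refine div_le_div_of_nonneg_right ?_ hw0.le
    rw [abs_le]
    constructor
    · linarith [step2 x ω b a]
    · linarith [step2 x ω a b])
  have hdc : ∑ x, (dc x / w) ^ 2 / 2 ≤ Sc / (2 * w ^ 2) := by
    have : ∑ x, (dc x / w) ^ 2 / 2 = (∑ x, dc x ^ 2) / (2 * w ^ 2) := by
      rw [sum_div]; refine sum_congr rfl fun x _ => ?_; field_simp
    rw [this]
    refine div_le_div_of_nonneg_right (le_trans (le_of_eq ?_) hSc) (by positivity)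
    rw [card_pairs_eq_sum_sq]
    simp [dc]
  -- step 3: the mean
  have hmean1 : ∀ e ∈ E, (1 / 4 : ℝ) ≤ 𝔼 ω : ι → Ω, (#(tgt cen lf Rel ω e) : ℝ) := by
    intro e he
    obtain ⟨B, hB, hBc⟩ := h2 e he
    have e1 : ∀ ω : ι → Ω, (#(tgt cen lf Rel ω e) : ℝ) =
        (fun a => (#(univ.filter fun b => Rel e a b) : ℝ)) (ω (cen e)) := by
      intro ω
      simp only [tgt]
      rw [card_image_of_injective _ (fun b b' h => (Prod.ext_iff.1 h).2)]
    simp only [e1]
    rw [expect_coord (cen e) (fun a => (#(univ.filter fun b => Rel e a b) : ℝ)),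
      Fintype.expect_eq_sum_div_card, le_div_iff₀ hw0]
    have h4 : #B ≤ ∑ a, #(univ.filter fun b => Rel e a b) := by
      rw [card_eq_sum_card_fiberwise (f := Prod.fst) (t := univ) (by simp)]
      refine sum_le_sum fun a _ => card_le_card_of_injOn Prod.snd ?_ ?_
      · rintro ⟨a', b⟩ hq
        simp only [coe_filter, Set.mem_ofPred_eq] at hq
        obtain ⟨hq, rfl⟩ := hq
        simpa using hB _ hq
      · rintro ⟨a1, b1⟩ hq1 ⟨a2, b2⟩ hq2 h
        simp only [coe_filter, Set.mem_ofPred_eq] at hq1 hq2 h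
        rw [hq1.2.trans hq2.2.symm, h]
    have h5 : (w : ℝ) ≤ 4 * #B := by rw [hw]; exact_mod_cast hBc
    have h6 : (#B : ℝ) ≤ ∑ a, (#(univ.filter fun b => Rel e a b) : ℝ) := by exact_mod_cast h4
    linarith
  have hmean2 : ∀ e ∈ E, ∀ e' ∈ E,
      𝔼 ω : ι → Ω, (#(tgt cen lf Rel ω e ∩ tgt cen lf Rel ω e') : ℝ) ≤
        (if e = e' then 𝔼 ω : ι → Ω, (#(tgt cen lf Rel ω e) : ℝ) else 0) +
          (if lf e = lf e' then 1 / w else 0) := by
    intro e he e' he'
    by_cases hee : e = e'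
    · subst hee
      simp only [inter_self, if_true]
      have : 0 ≤ 1 / w := by positivity
      linarith
    rw [if_neg hee, zero_add]
    by_cases hlf : lf e = lf e'
    swap
    · rw [if_neg hlf]
      refine le_of_eq (expect_eq_zero fun ω _ => ?_)
      rw [Nat.cast_eq_zero, card_eq_zero, eq_empty_iff_forall_notMem]
      intro u hu
      simp only [mem_inter, mem_tgt] at hu
      exact hlf (hu.1.1.symm.trans hu.2.1)
    rw [if_pos hlf]
    by_cases hcen : cen e = cen e'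
    · refine le_trans (le_of_eq (expect_eq_zero fun ω _ => ?_)) (by positivity)
      rw [Nat.cast_eq_zero, card_eq_zero, eq_empty_iff_forall_notMem]
      intro u hu
      simp only [mem_inter, mem_tgt] at hu
      exact h3 e he e' he' hee hcen hlf _ _ hu.1.2 (hcen ▸ hu.2.2)
    have hb : ∀ b : Ω, (#(univ.filter fun ω : ι → Ω =>
        Rel e (ω (cen e)) b ∧ Rel e' (ω (cen e')) b) : ℝ) * w ^ 2 ≤ Fintype.card (ι → Ω) := by
      intro b
      have := card_mul_sq_le (univ.filter fun ω : ι → Ω =>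
        Rel e (ω (cen e)) b ∧ Rel e' (ω (cen e')) b) hcen (by
          intro ξ hξ ξ' hξ' hz
          simp only [mem_filter, mem_univ, true_and] at hξ hξ'
          ext z
          by_cases hz1 : z = cen e
          · rw [hz1]; exact h1' e he _ _ _ hξ.1 hξ'.1
          by_cases hz2 : z = cen e'
          · rw [hz2]; exact h1' e' he' _ _ _ hξ.2 hξ'.2
          exact hz z hz1 hz2)
      rw [hw]; exact_mod_cast this
    have hle : ∀ ω : ι → Ω, (#(tgt cen lf Rel ω e ∩ tgt cen lf Rel ω e') : ℝ) ≤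
        ∑ b : Ω, if Rel e (ω (cen e)) b ∧ Rel e' (ω (cen e')) b then (1 : ℝ) else 0 := by
      intro ω
      rw [← sum_filter, sum_const, nsmul_eq_mul, mul_one]
      norm_cast
      refine card_le_card_of_injOn Prod.snd ?_ ?_
      · intro u hu
        simp only [coe_inter, Set.mem_inter_iff, mem_coe, mem_tgt] at hu
        simp [hu.1.2, hu.2.2]
      · intro u hu u' hu' h
        simp only [coe_inter, Set.mem_inter_iff, mem_coe, mem_tgt] at hu hu'
        exact Prod.ext (hu.1.1.trans hu'.1.1.symm) h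
    refine (expect_le_expect fun ω _ => hle ω).trans ?_
    rw [expect_sum_comm]
    calc ∑ b : Ω, 𝔼 ω : ι → Ω,
          (if Rel e (ω (cen e)) b ∧ Rel e' (ω (cen e')) b then (1 : ℝ) else 0)
        ≤ ∑ _b : Ω, 1 / w ^ 2 := by
          refine sum_le_sum fun b _ => ?_
          rw [Fintype.expect_eq_sum_div_card, ← sum_filter, sum_const, nsmul_eq_mul, mul_one,
            div_le_div_iff₀ hN0 (by positivity), one_mul]
          exact hb b
      _ = 1 / w := by
          rw [sum_const, card_univ, nsmul_eq_mul, ← hw]; field_simp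
  have hmean : (#E : ℝ) / 4 - Sl / w ≤ 𝔼 ω : ι → Ω, (#(U ω) : ℝ) := by
    refine le_trans ?_ (expect_le_expect fun ω _ => bonferroni E (tgt cen lf Rel ω))
    rw [expect_sub_distrib, ← mul_expect, expect_sum_comm, expect_sum_comm]
    have h7 : ∑ e ∈ E, 𝔼 ω : ι → Ω,
        ∑ e' ∈ E, (#(tgt cen lf Rel ω e ∩ tgt cen lf Rel ω e') : ℝ) ≤
        ∑ e ∈ E, 𝔼 ω : ι → Ω, (#(tgt cen lf Rel ω e) : ℝ) + Sl / w := by
      calc ∑ e ∈ E, 𝔼 ω : ι → Ω, ∑ e' ∈ E, (#(tgt cen lf Rel ω e ∩ tgt cen lf Rel ω e') : ℝ)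
          ≤ ∑ e ∈ E, ∑ e' ∈ E,
            ((if e = e' then 𝔼 ω : ι → Ω, (#(tgt cen lf Rel ω e) : ℝ) else 0) +
              (if lf e = lf e' then 1 / w else 0)) := by
            refine sum_le_sum fun e he => ?_
            rw [expect_sum_comm]
            exact sum_le_sum fun e' he' => hmean2 e he e' he'
        _ = ∑ e ∈ E, 𝔼 ω : ι → Ω, (#(tgt cen lf Rel ω e) : ℝ) +
              #{ee ∈ E ×ˢ E | lf ee.1 = lf ee.2} * (1 / w) := by
            simp only [sum_add_distrib]
            congr 1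
            · refine sum_congr rfl fun e he => ?_
              rw [sum_ite_eq, if_pos he]
            · rw [← sum_product', ← sum_filter, sum_const, nsmul_eq_mul]
        _ ≤ _ := by
            rw [mul_one_div]
            gcongr
    have h8 : (#E : ℝ) / 4 ≤ ∑ e ∈ E, 𝔼 ω : ι → Ω, (#(tgt cen lf Rel ω e) : ℝ) := by
      have := card_nsmul_le_sum E _ _ hmean1
      rw [nsmul_eq_mul] at this
      linarith
    linarith
  -- conclusion
  have hA' : (#A : ℝ) / Fintype.card (ι → Ω) =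
      𝔼 ξ : ι → Ω, (if ξ ∈ A then (1 : ℝ) else 0) := by
    rw [Fintype.expect_eq_sum_div_card, ← sum_filter, sum_const, nsmul_eq_mul, mul_one]
    simp
  rw [mul_comm, ← div_le_iff₀ hN0, hA', expect_piecewise C]
  refine (expect_le_expect fun ω _ => step1 ω).trans (hmc.trans (Real.exp_le_exp.2 ?_))
  rw [← expect_div]
  have h9 : (#E / 4 - Sl / w) / w ≤ (𝔼 ω : ι → Ω, (#(U ω) : ℝ)) / w :=
    div_le_div_of_nonneg_right hmean hw0.le
  have h10 : (#E / 4 - Sl / w) / w = #E / (4 * w) - Sl / w ^ 2 := by field_simp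
  linarith

end Blocking

/-- Some vertex set separates a quarter of the oriented edges in the right direction. -/
lemma exists_cut {ι ε : Type*} [Fintype ι] [DecidableEq ι] (E : Finset ε) (x y : ε → ι)
    (h : ∀ e ∈ E, x e ≠ y e) : ∃ C : Finset ι, #E ≤ 4 * #{e ∈ E | x e ∈ C ∧ y e ∉ C} := by
  classical
  have key : ∀ e ∈ E, 𝔼 χ : ι → Bool,
      (if χ (x e) = true ∧ χ (y e) = false then (1 : ℝ) else 0) = 1 / 4 := by
    intro e he
    rw [expect_resample (x e)]
    have : ∀ χ : ι → Bool, 𝔼 a : Bool, (if update χ (x e) a (x e) = true ∧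
        update χ (x e) a (y e) = false then (1 : ℝ) else 0) =
        (fun b : Bool => if b = false then (1 / 2 : ℝ) else 0) (χ (y e)) := by
      intro χ
      simp only [update_self, update_of_ne (h e he).symm]
      rw [Fintype.expect_eq_sum_div_card]
      cases χ (y e) <;> simp
    simp only [this]
    rw [expect_coord (y e) (fun b : Bool => if b = false then (1 / 2 : ℝ) else 0),
      Fintype.expect_eq_sum_div_card]
    simp
    norm_num
  have hsum : 𝔼 χ : ι → Bool, ((#E : ℝ) / 4) ≤ 𝔼 χ : ι → Bool,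
      ∑ e ∈ E, (if χ (x e) = true ∧ χ (y e) = false then (1 : ℝ) else 0) := by
    rw [expect_sum_comm, sum_congr rfl key, Fintype.expect_const, sum_const, nsmul_eq_mul]
    linarith
  obtain ⟨χ, -, hχ⟩ := exists_le_of_expect_le_expect univ_nonempty hsum
  refine ⟨univ.filter fun z => χ z = true, ?_⟩
  rw [← sum_filter, sum_const, nsmul_eq_mul, mul_one] at hχ
  have : (#E : ℝ) ≤ 4 * #{e ∈ E | χ (x e) = true ∧ χ (y e) = false} := by linarith
  have h2 : #E ≤ 4 * #{e ∈ E | χ (x e) = true ∧ χ (y e) = false} := by exact_mod_cast this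
  convert h2 using 3
  ext e
  simp

end Pool.Agent.P.MP_7e54d7_co
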