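import Mathlib

/-!
# Counting pairs of vectors of equal length in a sheared box
-/

open Finset

namespace Pool.Agent.P.MP_7e54d7_co

/-- The squared length of the vector with shear coordinates `v`. -/
def qf (M : ℕ) (v : ℤ × ℤ) : ℤ := (v.1 + M * v.2) ^ 2 + v.2 ^ 2

/-- The open box `(-N, N)^2`. -/
noncomputable def box (N : ℕ) : Finset (ℤ × ℤ) := Ioo (-(N : ℤ)) N ×ˢ Ioo (-(N : ℤ)) N

lemma mem_box {N : ℕ} {v : ℤ × ℤ} : v ∈ box N ↔ |v.1| < N ∧ |v.2| < N := by
  simp [box, abs_lt]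

/-- Pairs of vectors in the box with equal length that are not equal up to sign. -/
noncomputable def Coll (M N : ℕ) : Finset ((ℤ × ℤ) × (ℤ × ℤ)) :=
  {q ∈ box N ×ˢ box N | q.2 ≠ q.1 ∧ q.2 ≠ -q.1 ∧ qf M q.1 = qf M q.2}

/-- Pairs `(k, c)` with `k ≥ 1` and `|c k| ≤ B`, `k ≤ B`. -/
noncomputable def Dv (B : ℕ) : Finset (ℤ × ℤ) :=
  {q ∈ Icc (1 : ℤ) B ×ˢ Icc (-(B : ℤ)) B | |q.2 * q.1| ≤ B}

lemma mem_Dv {B : ℕ} {k c : ℤ} (h1 : 1 ≤ k) (h2 : k ≤ B) (h3 : |c * k| ≤ B) : (k, c) ∈ Dv B := by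
  simp only [Dv, mem_filter, mem_product, mem_Icc]
  have : |c| ≤ B := by
    rw [abs_mul, abs_of_pos (by omega : 0 < k)] at h3
    nlinarith [abs_nonneg c]
  exact ⟨⟨⟨h1, h2⟩, abs_le.1 this⟩, h3⟩

lemma card_Dv_le (B : ℕ) : (#(Dv B) : ℝ) ≤ 3 * B * (1 + Real.log B) := by
  have h1 : #(Dv B) ≤ ∑ k ∈ Icc 1 B, (2 * (B / k) + 1) := by
    have hsub : Dv B ⊆ (Icc 1 B).biUnion fun k : ℕ =>
        (Icc (-((B / k : ℕ) : ℤ)) ((B / k : ℕ) : ℤ)).image fun c => ((k : ℤ), c) := by
      rintro ⟨k, c⟩ h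
      simp only [Dv, mem_filter, mem_product, mem_Icc] at h
      obtain ⟨⟨⟨hk1, hk2⟩, -⟩, h3⟩ := h
      obtain ⟨k, rfl⟩ := Int.eq_ofNat_of_zero_le (by omega : 0 ≤ k)
      simp only [mem_biUnion, mem_Icc, mem_image, Prod.mk.injEq]
      refine ⟨k, ⟨by omega, by omega⟩, c, ?_, rfl, rfl⟩
      rw [← abs_le]
      rw [abs_mul, abs_of_pos (by omega : (0 : ℤ) < k)] at h3
      push_cast
      exact Int.le_ediv_of_mul_le (by omega) h3
    refine (card_le_card hsub).trans (card_biUnion_le.trans (sum_le_sum fun k _ => ?_))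
    refine card_image_le.trans (le_of_eq ?_)
    rw [Int.card_Icc]
    omega
  have h2 : (#(Dv B) : ℝ) ≤ ∑ k ∈ Icc 1 B, 3 * (B : ℝ) * (k : ℝ)⁻¹ := by
    refine (Nat.cast_le.2 h1).trans ?_
    push_cast
    refine sum_le_sum fun k hk => ?_
    rw [mem_Icc] at hk
    have hk0 : (0 : ℝ) < k := by exact_mod_cast hk.1
    have h3 : ((B / k : ℕ) : ℝ) ≤ B / k := Nat.cast_div_le
    have h4 : (1 : ℝ) ≤ B / k := by
      rw [le_div_iff₀ hk0, one_mul]; exact_mod_cast hk.2
    rw [mul_assoc, ← div_eq_mul_inv]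
    linarith
  refine h2.trans ?_
  rw [← mul_sum]
  have h5 : ∑ k ∈ Icc 1 B, (k : ℝ)⁻¹ = (harmonic B : ℝ) := by
    rw [harmonic_eq_sum_Icc]; push_cast; rfl
  rw [h5]
  exact mul_le_mul_of_nonneg_left (harmonic_le_one_add_log B) (by positivity)

/-- Orthogonal pairs in which the first vector is steep. -/
noncomputable def Orth (M N : ℕ) : Finset ((ℤ × ℤ) × (ℤ × ℤ)) :=
  {q ∈ box (2 * N) ×ˢ box (2 * N) | q.1 ≠ 0 ∧ q.2 ≠ 0 ∧
    (q.1.1 + M * q.1.2) * (q.2.1 + M * q.2.2) + q.1.2 * q.2.2 = 0 ∧ |q.1.1 + M * q.1.2| ≤ |q.1.2|}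

lemma card_Orth_le (M N : ℕ) (hM : 2 ≤ M) :
    #(Orth M N) ≤ #(Dv (2 * N / (M - 1))) * #(Dv (2 * N)) * 2 := by
  set H := 2 * N / (M - 1) with hH
  let F : ((ℤ × ℤ) × (ℤ × ℤ)) × ℤ → (ℤ × ℤ) × (ℤ × ℤ) := fun r =>
    ((r.1.1.2 * r.1.1.1 - M * (r.1.2.2 * r.1.1.1 - M * (r.1.1.2 * r.1.1.1)),
      r.1.2.2 * r.1.1.1 - M * (r.1.1.2 * r.1.1.1)),
      (r.1.2.2 * (r.2 * r.1.2.1), -(r.1.1.2 * (r.2 * r.1.2.1))))
  have hsub : Orth M N ⊆ ((Dv H ×ˢ Dv (2 * N)) ×ˢ ({1, -1} : Finset ℤ)).image F := by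
    rintro ⟨⟨s, t⟩, ⟨s', t'⟩⟩ h
    simp only [Orth, mem_filter, mem_product, mem_box, ne_eq, Prod.mk_eq_zero] at h
    obtain ⟨⟨⟨hs, ht⟩, hs', ht'⟩, h0, h0', horth, hX⟩ := h
    push_cast at hs ht hs' ht'
    have ht0 : t ≠ 0 := by
      rintro rfl
      simp at hX h0
      exact h0 hX
    have htH : |t| ≤ H := by
      have h1 : |t| * ((M - 1 : ℕ) : ℤ) ≤ 2 * N := by
        rw [Nat.cast_sub (by omega)]
        have h2 : (M : ℤ) * |t| ≤ |s + M * t| + |s| := by
          have : (M : ℤ) * |t| = |(s + M * t) - s| := by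
            rw [add_sub_cancel_left, abs_mul, Nat.abs_cast]
          rw [this]
          exact abs_sub _ _
        push_cast
        nlinarith
      rw [hH]
      push_cast
      exact Int.le_ediv_of_mul_le (by omega) h1
    set X := s + M * t with hXdef
    set Y := t + M * X with hYdef
    have hg : 0 < Int.gcd X Y := by
      rw [Int.gcd_pos_iff]
      by_cases hX0 : X = 0
      · right; rw [hYdef, hX0]; simpa using ht0
      · left; exact hX0
    obtain ⟨a, c, hac, ha, hc⟩ := Int.exists_gcd_one hg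
    set g : ℤ := (Int.gcd X Y : ℤ) with hgdef
    have hg1 : 1 ≤ g := by rw [hgdef]; exact_mod_cast hg
    obtain ⟨u, v, huv⟩ := Int.isCoprime_iff_gcd_eq_one.2 hac
    have heq : a * s' = -(t' * c) := by
      have : g * (a * s' + t' * c) = 0 := by
        have e : g * (a * s' + t' * c) = (a * g) * s' + t' * (c * g) := by ring
        rw [e, ← ha, ← hc, hYdef, ← horth]; ring
      rcases mul_eq_zero.1 this with h | h
      · omega
      · linarith
    set k := v * s' - u * t' with hk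
    have hs'k : s' = c * k := by
      rw [hk]; linear_combination (-s') * huv + u * heq
    have ht'k : t' = -(a * k) := by
      rw [hk]; linear_combination (-t') * huv + v * heq
    have hk0 : k ≠ 0 := by
      rintro h
      apply h0'
      rw [hs'k, ht'k, h]; simp
    have hkB : |k| ≤ 2 * N := by
      by_cases hc0 : c = 0
      · have ha0 : a ≠ 0 := by
          rintro rfl
          simp [hc0] at huv
        have : 1 ≤ |a| := Int.one_le_abs ha0
        rw [ht'k, abs_neg, abs_mul] at ht'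
        nlinarith [abs_nonneg k]
      · have : 1 ≤ |c| := Int.one_le_abs hc0
        rw [hs'k, abs_mul] at hs'
        nlinarith [abs_nonneg k]
    have htg : t = (c - M * a) * g := by
      rw [sub_mul, mul_assoc, ← ha, ← hc, hYdef]; ring
    have hgH : g ≤ H := by
      have h1 : c - M * a ≠ 0 := by
        intro h; rw [h, zero_mul] at htg; exact ht0 htg
      have h2 : 1 ≤ |c - M * a| := Int.one_le_abs h1
      rw [htg, abs_mul, abs_of_pos (by omega : 0 < g)] at htH
      nlinarith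
    have hsign : k.sign * |k| = k := Int.sign_mul_abs k
    simp only [mem_image, mem_product, mem_insert, mem_singleton]
    refine ⟨(((g, a), (|k|, c)), k.sign), ⟨⟨mem_Dv hg1 hgH ?_, mem_Dv (Int.one_le_abs hk0) ?_ ?_⟩,
      ?_⟩, ?_⟩
    · rw [← ha]; exact hX.trans htH
    · exact_mod_cast hkB
    · rw [abs_mul, abs_abs, ← abs_mul, ← hs'k]; push_cast; exact hs'.le
    · rcases lt_or_gt_of_ne hk0 with h | h
      · right; exact Int.sign_eq_neg_one_of_neg h
      · left; exact Int.sign_eq_one_of_pos h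
    · simp only [F, hsign, ← ha, ← hc, Prod.mk.injEq]
      refine ⟨⟨?_, ?_⟩, hs'k.symm, ht'k.symm⟩
      · rw [hYdef, hXdef]; ring
      · rw [hYdef]; ring
  refine (card_le_card hsub).trans (card_image_le.trans (le_of_eq ?_))
  rw [card_product, card_product]
  rfl

lemma card_Coll_le_Orth (M N : ℕ) : #(Coll M N) ≤ 2 * #(Orth M N) := by
  have h : #(Coll M N) ≤ #(Orth M N ∪ (Orth M N).image Prod.swap) := by
    refine card_le_card_of_injOn (fun q => (q.1 - q.2, q.1 + q.2)) ?_ ?_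
    · rintro ⟨⟨a, b⟩, ⟨c, d⟩⟩ h
      simp only [Coll, coe_filter, mem_product, mem_box, Set.mem_ofPred_eq, qf, ne_eq,
        Prod.mk.injEq, Prod.neg_mk] at h
      obtain ⟨⟨⟨ha, hb⟩, hc, hd⟩, h1, h2, h3⟩ := h
      have b1 : |a - c| < 2 * N := by have := abs_sub a c; linarith
      have b2 : |b - d| < 2 * N := by have := abs_sub b d; linarith
      have b3 : |a + c| < 2 * N := by have := abs_add_le a c; linarith
      have b4 : |b + d| < 2 * N := by have := abs_add_le b d; linarith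
      have n1 : ¬ (a - c = 0 ∧ b - d = 0) := fun h => h1 ⟨by omega, by omega⟩
      have n2 : ¬ (a + c = 0 ∧ b + d = 0) := fun h => h2 ⟨by omega, by omega⟩
      have horth : (a - c + M * (b - d)) * (a + c + M * (b + d)) + (b - d) * (b + d) = 0 := by
        linear_combination h3
      simp only [coe_union, coe_image, Set.mem_union, mem_coe, Set.mem_image, Prod.mk_sub_mk,
        Prod.mk_add_mk]
      by_cases hX : |a - c + M * (b - d)| ≤ |b - d|
      · left
        simp only [Orth, mem_filter, mem_product, mem_box, ne_eq, Prod.mk_eq_zero]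
        push_cast
        exact ⟨⟨⟨b1, b2⟩, b3, b4⟩, n1, n2, horth, hX⟩
      · right
        refine ⟨((a + c, b + d), (a - c, b - d)), ?_, rfl⟩
        simp only [Orth, mem_filter, mem_product, mem_box, ne_eq, Prod.mk_eq_zero]
        push_cast
        refine ⟨⟨⟨b3, b4⟩, b1, b2⟩, n2, n1, by linear_combination horth, ?_⟩
        by_contra hX'
        push Not at hX hX'
        have e : |a - c + M * (b - d)| * |a + c + M * (b + d)| = |b - d| * |b + d| := by
          rw [← abs_mul, ← abs_mul, ← abs_neg ((b - d) * (b + d))]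
          congr 1
          linarith
        have := mul_lt_mul'' hX hX' (abs_nonneg _) (abs_nonneg _)
        linarith
    · rintro ⟨⟨a, b⟩, ⟨c, d⟩⟩ - ⟨⟨a', b'⟩, ⟨c', d'⟩⟩ - h
      simp only [Prod.mk_sub_mk, Prod.mk_add_mk, Prod.mk.injEq] at h ⊢
      omega
  refine h.trans ((card_union_le _ _).trans ?_)
  have := card_image_le (s := Orth M N) (f := Prod.swap)
  omega

theorem card_Coll_le (M N : ℕ) (hM : 2 ≤ M) (hN : 1 ≤ N) :
    (#(Coll M N) : ℝ) * (M - 1) ≤ 144 * N ^ 2 * (1 + Real.log (2 * N)) ^ 2 := by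
  set H := 2 * N / (M - 1) with hH
  have h1 : #(Coll M N) ≤ 4 * (#(Dv H) * #(Dv (2 * N))) := by
    have := card_Coll_le_Orth M N
    have := card_Orth_le M N hM
    rw [← hH] at this
    omega
  have hH1 : H * (M - 1) ≤ 2 * N := Nat.div_mul_le_self _ _
  have hH2 : (H : ℝ) * (M - 1) ≤ 2 * N := by
    have : ((H * (M - 1) : ℕ) : ℝ) ≤ ((2 * N : ℕ) : ℝ) := Nat.cast_le.2 hH1
    push_cast [Nat.cast_sub (by omega : 1 ≤ M)] at this
    exact this
  have hH3 : H ≤ 2 * N := Nat.div_le_self _ _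
  have hN' : (1 : ℝ) ≤ N := by exact_mod_cast hN
  have hL : 0 ≤ Real.log (2 * N) := Real.log_nonneg (by linarith)
  have hlog : Real.log H ≤ Real.log (2 * N) := by
    rcases Nat.eq_zero_or_pos H with h | h
    · rw [h]; simpa using hL
    · exact Real.log_le_log (by exact_mod_cast h) (by exact_mod_cast hH3)
  have d1 : (#(Dv H) : ℝ) ≤ 3 * H * (1 + Real.log (2 * N)) :=
    (card_Dv_le H).trans (by gcongr)
  have d2 : (#(Dv (2 * N)) : ℝ) ≤ 3 * (2 * N) * (1 + Real.log (2 * N)) := by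
    have := card_Dv_le (2 * N)
    push_cast at this
    exact this
  have hM' : (0 : ℝ) ≤ M - 1 := by
    have : (2 : ℝ) ≤ M := by exact_mod_cast hM
    linarith
  calc (#(Coll M N) : ℝ) * (M - 1)
      ≤ (4 * ((3 * H * (1 + Real.log (2 * N))) * (3 * (2 * N) * (1 + Real.log (2 * N))))) *
          (M - 1) := by
        refine mul_le_mul_of_nonneg_right ?_ hM'
        have : (#(Coll M N) : ℝ) ≤ 4 * (#(Dv H) * #(Dv (2 * N))) := by exact_mod_cast h1
        refine this.trans ?_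
        gcongr
    _ = 72 * N * (1 + Real.log (2 * N)) ^ 2 * (H * (M - 1)) := by ring
    _ ≤ 72 * N * (1 + Real.log (2 * N)) ^ 2 * (2 * N) := by gcongr
    _ = _ := by ring

end Pool.Agent.P.MP_7e54d7_co
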