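import Pool.Agent.P.MP_7e54d7_co.Sample

/-!
# Selecting a subset whose difference graph has small second moment
-/

open Finset

namespace Pool.Agent.P.MP_7e54d7_co

section Field

variable {F : Type*} [Field F]

/-- For points `P, P'` with different first coordinates, `fx P P'` is the `x` with
`P - P' = (x, x^2) - (y, y^2)`, where `y = fx P' P`. -/
def fx (P P' : F × F) : F := ((P.2 - P'.2) / (P.1 - P'.1) + (P.1 - P'.1)) / 2

/-- Incidence with the curve `t + s^2 = l.1 * s + l.2`. -/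
def OnLine (l P : F × F) : Prop := P.2 + P.1 ^ 2 = l.1 * P.1 + l.2

lemma fx_spec (h2 : (2 : F) ≠ 0) {P P' : F × F} (h : P.1 ≠ P'.1) :
    P.2 - P'.2 = (P.1 - P'.1) * (2 * fx P P' - (P.1 - P'.1)) := by
  have := sub_ne_zero.2 h
  unfold fx
  field_simp
  ring

lemma fx_sub (h2 : (2 : F) ≠ 0) {P P' : F × F} (h : P.1 ≠ P'.1) :
    fx P P' - fx P' P = P.1 - P'.1 := by
  have := sub_ne_zero.2 h
  have := sub_ne_zero.2 h.symm
  unfold fx
  field_simp
  ring

lemma fx_sq_sub (h2 : (2 : F) ≠ 0) {P P' : F × F} (h : P.1 ≠ P'.1) :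
    fx P P' ^ 2 - fx P' P ^ 2 = P.2 - P'.2 := by
  have h1 := fx_spec h2 h
  have h3 := fx_sub h2 h
  rw [h1, ← h3]
  ring

end Field

section Select

variable {F : Type*} [Field F] [Fintype F] [DecidableEq F] {α : Type*} [DecidableEq α]

open Classical in
/-- The points of `J` on the curve `l`. -/
noncomputable def lineSet (J : Finset α) (ρ : α → F × F) (l : F × F) : Finset α :=
  {a ∈ J | OnLine l (ρ a)}

/-- A good pair: different first coordinates, and joined by a poor curve. -/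
def Good (J : Finset α) (ρ : α → F × F) (a b : α) : Prop :=
  (ρ a).1 ≠ (ρ b).1 ∧ ∀ l, OnLine l (ρ a) → OnLine l (ρ b) →
    Fintype.card F * #(lineSet J ρ l) < 2 * #J

omit [DecidableEq F] [DecidableEq α] in
lemma Good.symm {J : Finset α} {ρ : α → F × F} {a b : α} (h : Good J ρ a b) : Good J ρ b a :=
  ⟨h.1.symm, fun l h1 h2 => h.2 l h2 h1⟩

omit [DecidableEq α] in
lemma sum_lineSet (J : Finset α) (ρ : α → F × F) :
    ∑ l, #(lineSet J ρ l) = Fintype.card F * #J := by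
  classical
  have : ∀ a, #{l : F × F | OnLine l (ρ a)} = Fintype.card F := by
    intro a
    rw [← card_univ]
    refine card_bij (fun l _ => l.1) (fun _ _ => mem_univ _) ?_ ?_
    · intro l hl l' hl' h
      simp only [mem_filter, mem_univ, true_and, OnLine] at hl hl' h
      refine Prod.ext h ?_
      rw [h] at hl
      linear_combination hl' - hl
    · intro m _
      refine ⟨(m, (ρ a).2 + (ρ a).1 ^ 2 - m * (ρ a).1), ?_, rfl⟩
      simp [OnLine]
  simp only [lineSet, card_filter]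
  rw [sum_comm]
  simp only [← card_filter, this]
  rw [sum_const, smul_eq_mul, mul_comm]

lemma sum_lineSet_sq (J : Finset α) (ρ : α → F × F) (hρ : Set.InjOn ρ J) :
    ∑ l, #(lineSet J ρ l) ^ 2 ≤ Fintype.card F * #J + #J ^ 2 := by
  classical
  have h1 : ∀ l, #(lineSet J ρ l) ^ 2 ≤ #(lineSet J ρ l) +
      #{q ∈ J ×ˢ J | q.1 ≠ q.2 ∧ OnLine l (ρ q.1) ∧ OnLine l (ρ q.2)} := by
    intro l
    rw [sq, ← card_product]
    calc #(lineSet J ρ l ×ˢ lineSet J ρ l)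
        ≤ #((lineSet J ρ l).image (fun a => (a, a)) ∪
          {q ∈ J ×ˢ J | q.1 ≠ q.2 ∧ OnLine l (ρ q.1) ∧ OnLine l (ρ q.2)}) := by
          refine card_le_card ?_
          rintro ⟨a, b⟩ h
          simp only [lineSet, mem_product, mem_filter, mem_union, mem_image, Prod.mk.injEq] at h ⊢
          by_cases hab : a = b
          · exact Or.inl ⟨a, h.1, rfl, hab⟩
          · exact Or.inr ⟨⟨h.1.1, h.2.1⟩, hab, h.1.2, h.2.2⟩
      _ ≤ _ := (card_union_le _ _).trans (Nat.add_le_add_right card_image_le _)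
  refine (sum_le_sum fun l _ => h1 l).trans ?_
  rw [sum_add_distrib, sum_lineSet]
  refine Nat.add_le_add_left ?_ _
  simp only [card_filter]
  rw [sum_comm, sq, ← card_product, card_eq_sum_ones]
  refine sum_le_sum fun q hq => ?_
  rw [← card_filter, card_le_one]
  intro l hl l' hl'
  simp only [mem_filter, mem_univ, true_and, OnLine] at hl hl'
  rw [mem_product] at hq
  have hne : (ρ q.1).1 ≠ (ρ q.2).1 := by
    intro h
    refine hl.1 (hρ hq.1 hq.2 (Prod.ext h ?_))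
    have h1 := hl.2.1
    rw [h] at h1
    linear_combination h1 - hl.2.2
  have h3 : (l.1 - l'.1) * ((ρ q.1).1 - (ρ q.2).1) = 0 := by
    linear_combination hl'.2.1 - hl.2.1 - hl'.2.2 + hl.2.2
  have h4 : l.1 = l'.1 := by
    rcases mul_eq_zero.1 h3 with h | h
    · exact sub_eq_zero.1 h
    · exact absurd (sub_eq_zero.1 h) hne
  refine Prod.ext h4 ?_
  have h5 := hl.2.1
  rw [h4] at h5
  linear_combination hl'.2.1 - h5

lemma sum_rich_le (J : Finset α) (ρ : α → F × F) (hρ : Set.InjOn ρ J) :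
    ∑ l ∈ univ.filter (fun l => 2 * #J ≤ Fintype.card F * #(lineSet J ρ l)),
      #(lineSet J ρ l) ^ 2 ≤ 4 * (Fintype.card F * #J) := by
  set p : ℝ := (Fintype.card F : ℝ) with hp
  set j : ℝ := (#J : ℝ) with hj
  have hp0 : 0 < p := by rw [hp]; exact_mod_cast Fintype.card_pos
  have h1 : ∑ l, (#(lineSet J ρ l) : ℝ) = p * j := by
    rw [hp, hj]; exact_mod_cast sum_lineSet J ρ
  have h2 : ∑ l, (#(lineSet J ρ l) : ℝ) ^ 2 ≤ p * j + j ^ 2 := by
    rw [hp, hj]; exact_mod_cast sum_lineSet_sq J ρ hρ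
  have h3 : ∑ l, (p * #(lineSet J ρ l) - j) ^ 2 ≤ p ^ 3 * j := by
    have : ∑ l, (p * #(lineSet J ρ l) - j) ^ 2 = p ^ 2 * ∑ l, (#(lineSet J ρ l) : ℝ) ^ 2 -
        2 * p * j * ∑ l, (#(lineSet J ρ l) : ℝ) + ∑ _l : F × F, j ^ 2 := by
      rw [mul_sum, mul_sum, ← sum_sub_distrib, ← sum_add_distrib]
      exact sum_congr rfl fun l _ => by ring
    rw [this, h1, sum_const, card_univ, Fintype.card_prod, nsmul_eq_mul]
    push_cast
    rw [← hp]
    nlinarith [mul_le_mul_of_nonneg_left h2 (sq_nonneg p)]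
  have h4 : p ^ 2 * ∑ l ∈ univ.filter (fun l => 2 * #J ≤ Fintype.card F * #(lineSet J ρ l)),
      (#(lineSet J ρ l) : ℝ) ^ 2 ≤ p ^ 2 * (4 * (p * j)) := by
    rw [mul_sum]
    calc _ ≤ ∑ l ∈ univ.filter (fun l => 2 * #J ≤ Fintype.card F * #(lineSet J ρ l)),
          4 * (p * #(lineSet J ρ l) - j) ^ 2 := by
          refine sum_le_sum fun l hl => ?_
          have h5 : 2 * j ≤ p * #(lineSet J ρ l) := by
            rw [hp, hj]; exact_mod_cast (mem_filter.1 hl).2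
          have hj0 : 0 ≤ j := by rw [hj]; positivity
          nlinarith
      _ ≤ ∑ l, 4 * (p * #(lineSet J ρ l) - j) ^ 2 :=
          sum_le_sum_of_subset_of_nonneg (filter_subset _ _) fun _ _ _ => by positivity
      _ ≤ _ := by rw [← mul_sum]; nlinarith
  have h6 := le_of_mul_le_mul_left h4 (by positivity)
  rw [hp, hj] at h6
  exact_mod_cast h6

omit [DecidableEq α] [Field F] [DecidableEq F] in
/-- A set of points in which the first coordinate determines the second has at most `|F|`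
elements. -/
lemma card_le_of_graph (J : Finset α) (ρ : α → F × F) (hρ : Set.InjOn ρ J) (A : Finset α)
    (hA : A ⊆ J) (h : ∀ a ∈ A, ∀ b ∈ A, (ρ a).1 = (ρ b).1 → (ρ a).2 = (ρ b).2) :
    #A ≤ Fintype.card F := by
  rw [← card_univ]
  refine card_le_card_of_injOn (fun a => (ρ a).1) (fun _ _ => by simp) ?_
  intro a ha b hb hab
  exact hρ (hA ha) (hA hb) (Prod.ext hab (h a ha b hb hab))

open Classical in
lemma card_bad_le (J : Finset α) (ρ : α → F × F) (hρ : Set.InjOn ρ J) :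
    #{q ∈ J ×ˢ J | ¬ Good J ρ q.1 q.2} ≤ 5 * (Fintype.card F * #J) := by
  have hsub : ({q ∈ J ×ˢ J | ¬ Good J ρ q.1 q.2} : Finset (α × α)) ⊆
      {q ∈ J ×ˢ J | (ρ q.1).1 = (ρ q.2).1} ∪
      (univ.filter (fun l => 2 * #J ≤ Fintype.card F * #(lineSet J ρ l))).biUnion
        fun l => lineSet J ρ l ×ˢ lineSet J ρ l := by
    rintro ⟨a, b⟩ h
    simp only [mem_filter, mem_product, Good, not_and, not_forall, not_lt, mem_union,
      mem_biUnion, mem_univ, true_and] at h ⊢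
    by_cases hab : (ρ a).1 = (ρ b).1
    · exact Or.inl ⟨h.1, hab⟩
    · obtain ⟨l, h1, h2, h3⟩ := h.2 hab
      exact Or.inr ⟨l, h3, by simp [lineSet, h.1.1, h1], by simp [lineSet, h.1.2, h2]⟩
  have h1 : #{q ∈ J ×ˢ J | (ρ q.1).1 = (ρ q.2).1} ≤ Fintype.card F * #J := by
    rw [card_eq_sum_card_fiberwise (f := Prod.fst) (t := J)
      (fun q hq => by simp only [coe_filter, mem_product, Set.mem_ofPred_eq] at hq; exact hq.1.1),
      mul_comm]
    refine (sum_le_card_nsmul _ _ (Fintype.card F) fun a _ => ?_).trans (by simp)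
    rw [← card_univ]
    refine card_le_card_of_injOn (fun q => (ρ q.2).2) (fun _ _ => by simp) ?_
    rintro ⟨a1, b1⟩ h1 ⟨a2, b2⟩ h2 h
    simp only [coe_filter, mem_filter, mem_product, Set.mem_ofPred_eq] at h1 h2 h
    obtain ⟨⟨⟨-, hb1⟩, e1⟩, rfl⟩ := h1
    obtain ⟨⟨⟨-, hb2⟩, e2⟩, rfl⟩ := h2
    rw [hρ hb1 hb2 (Prod.ext (e1.symm.trans e2) h)]
  have h2 := sum_rich_le J ρ hρ
  have h3 := (card_le_card hsub).trans ((card_union_le _ _).trans
    (Nat.add_le_add h1 card_biUnion_le))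
  simp only [card_product, ← sq] at h3
  omega

open Classical in
lemma card_fiber_good (h2 : (2 : F) ≠ 0) (J : Finset α) (ρ : α → F × F) (x : F) :
    Fintype.card F * #{e ∈ J ×ˢ J | Good J ρ e.1 e.2 ∧ fx (ρ e.1) (ρ e.2) = x} ≤
      2 * #J ^ 2 := by
  rw [card_eq_sum_card_fiberwise (f := Prod.snd) (t := J)
    (fun q hq => by simp only [coe_filter, mem_product, Set.mem_ofPred_eq] at hq; exact hq.1.2),
    mul_sum]
  refine (sum_le_card_nsmul _ _ (2 * #J) fun b _ => ?_).trans (by simp only [smul_eq_mul]; ring_nf; rfl)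
  set l : F × F := (2 * (x + (ρ b).1), (ρ b).2 + (ρ b).1 ^ 2 - 2 * (x + (ρ b).1) * (ρ b).1)
    with hl
  have hb : OnLine l (ρ b) := by simp [OnLine, hl]
  have hon : ∀ a, (ρ a).1 ≠ (ρ b).1 → fx (ρ a) (ρ b) = x → OnLine l (ρ a) := by
    intro a ha hx
    have := fx_spec h2 ha
    rw [hx] at this
    simp only [OnLine, hl]
    linear_combination this
  rcases (({e ∈ {e ∈ J ×ˢ J | Good J ρ e.1 e.2 ∧ fx (ρ e.1) (ρ e.2) = x} | e.2 = b} :
    Finset (α × α))).eq_empty_or_nonempty with h | ⟨⟨a, b'⟩, h⟩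
  · rw [h]; simp
  · simp only [mem_filter, mem_product] at h
    obtain ⟨⟨-, hg, hx⟩, rfl⟩ := h
    refine le_trans (Nat.mul_le_mul_left _ ?_) (hg.2 l (hon a hg.1 hx) hb).le
    refine card_le_card_of_injOn Prod.fst ?_ ?_
    · rintro ⟨a1, b1⟩ h1
      simp only [coe_filter, mem_filter, mem_product, Set.mem_ofPred_eq] at h1
      obtain ⟨⟨⟨ha1, -⟩, hg1, hx1⟩, rfl⟩ := h1
      simp only [lineSet, coe_filter, Set.mem_ofPred_eq]
      exact ⟨ha1, hon a1 hg1.1 hx1⟩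
    · rintro ⟨a1, b1⟩ h1 ⟨a2, b2⟩ h2 h
      simp only [coe_filter, mem_filter, mem_product, Set.mem_ofPred_eq] at h1 h2 h
      rw [h, h1.2, h2.2]

open Classical in
lemma card_fiber_touch (h2 : (2 : F) ≠ 0) (J : Finset α) (ρ : α → F × F) (hρ : Set.InjOn ρ J)
    (x : F) (u : α) :
    #{e ∈ J ×ˢ J | (Good J ρ e.1 e.2 ∧ fx (ρ e.1) (ρ e.2) = x) ∧ (e.1 = u ∨ e.2 = u)} ≤
      2 * Fintype.card F := by
  have hsub : ({e ∈ J ×ˢ J | (Good J ρ e.1 e.2 ∧ fx (ρ e.1) (ρ e.2) = x) ∧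
      (e.1 = u ∨ e.2 = u)} : Finset (α × α)) ⊆
      ({a ∈ J | (ρ u).1 ≠ (ρ a).1 ∧ fx (ρ u) (ρ a) = x} : Finset α).image (fun a => (u, a)) ∪
      ({a ∈ J | (ρ a).1 ≠ (ρ u).1 ∧ fx (ρ a) (ρ u) = x} : Finset α).image (fun a => (a, u)) := by
    rintro ⟨a, b⟩ h
    simp only [mem_filter, mem_product, mem_union, mem_image, Prod.mk.injEq] at h ⊢
    obtain ⟨⟨ha, hb⟩, ⟨hg, hx⟩, rfl | rfl⟩ := h
    · exact Or.inl ⟨b, ⟨hb, hg.1, hx⟩, rfl, rfl⟩
    · exact Or.inr ⟨a, ⟨ha, hg.1, hx⟩, rfl, rfl⟩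
  refine (card_le_card hsub).trans ((card_union_le _ _).trans ?_)
  rw [two_mul]
  refine Nat.add_le_add (card_image_le.trans ?_) (card_image_le.trans ?_)
  · refine card_le_of_graph J ρ hρ _ (filter_subset _ _) fun a ha b hb hab => ?_
    rw [mem_filter] at ha hb
    have e1 := fx_spec h2 ha.2.1
    have e2 := fx_spec h2 hb.2.1
    rw [ha.2.2, hab] at e1
    rw [hb.2.2] at e2
    linear_combination e2 - e1
  · refine card_le_of_graph J ρ hρ _ (filter_subset _ _) fun a ha b hb hab => ?_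
    rw [mem_filter] at ha hb
    have e1 := fx_spec h2 ha.2.1
    have e2 := fx_spec h2 hb.2.1
    rw [ha.2.2, hab] at e1
    rw [hb.2.2] at e2
    linear_combination e1 - e2

theorem select (h2 : (2 : F) ≠ 0) (J : Finset α) (ρ : α → F × F) (hρ : Set.InjOn ρ J)
    {i : ℕ} (hi : i ≤ #J) (hJ : 0 < #J) {lam : ℝ} (hlam : 0 ≤ lam) :
    ∃ J' ⊆ J, #J' = i ∧ ∃ E ⊆ J' ×ˢ J', (∀ e ∈ E, (ρ e.1).1 ≠ (ρ e.2).1) ∧ ∃ S : ℝ,
      (#{ee ∈ E ×ˢ E | fx (ρ ee.1.1) (ρ ee.1.2) = fx (ρ ee.2.1) (ρ ee.2.2)} : ℝ) ≤ S ∧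
      (#{ee ∈ E ×ˢ E | fx (ρ ee.1.2) (ρ ee.1.1) = fx (ρ ee.2.2) (ρ ee.2.1)} : ℝ) ≤ S ∧
      (i : ℝ) ^ 2 - i - #E + lam * S ≤ 5 * Fintype.card F * (i : ℝ) ^ 2 / #J +
        lam * (2 * (i : ℝ) ^ 4 / Fintype.card F + 4 * (i : ℝ) ^ 3 * Fintype.card F / #J +
          4 * (i : ℝ) ^ 2) := by
  classical
  set p : ℝ := (Fintype.card F : ℝ) with hp
  set j : ℝ := (#J : ℝ) with hj
  have hp0 : 0 < p := by rw [hp]; exact_mod_cast Fintype.card_pos
  have hj0 : 0 < j := by rw [hj]; exact_mod_cast hJ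
  let G : Finset (α × α) := {e ∈ J ×ˢ J | Good J ρ e.1 e.2}
  let φ : α × α → F := fun e => fx (ρ e.1) (ρ e.2)
  let T : Finset ((α × α) × (α × α)) := {ee ∈ G ×ˢ G | φ ee.1 = φ ee.2}
  let supp : (α × α) × (α × α) → Finset α := fun ee => {ee.2.1, ee.2.2, ee.1.1, ee.1.2}
  let T4 := {ee ∈ T | ee.2.1 ∉ ({ee.1.1, ee.1.2} : Finset α) ∧
    ee.2.2 ∉ ({ee.1.1, ee.1.2} : Finset α)}
  let T2 := {ee ∈ T | ee.2.1 ∈ ({ee.1.1, ee.1.2} : Finset α) ∧
    ee.2.2 ∈ ({ee.1.1, ee.1.2} : Finset α)}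
  let T3 := {ee ∈ T | (ee.2.1 ∈ ({ee.1.1, ee.1.2} : Finset α) ∨
    ee.2.2 ∈ ({ee.1.1, ee.1.2} : Finset α)) ∧ (ee.2.1 ∉ ({ee.1.1, ee.1.2} : Finset α) ∨
    ee.2.2 ∉ ({ee.1.1, ee.1.2} : Finset α))}
  let B : Finset (α × α) := {q ∈ J ×ˢ J | q.1 ≠ q.2 ∧ ¬ Good J ρ q.1 q.2}
  let suppB : α × α → Finset α := fun q => {q.1, q.2}
  have hGne : ∀ e ∈ G, e.1 ≠ e.2 := by
    intro e he h
    exact (mem_filter.1 he).2.1 (by rw [h])
  have hGcard : #G ≤ #J ^ 2 := by
    rw [sq, ← card_product]; exact card_filter_le _ _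
  have hTsupp : ∀ ee ∈ T, supp ee ⊆ J := by
    intro ee hee
    simp only [T, G, mem_filter, mem_product] at hee
    intro a ha
    simp only [supp, mem_insert, mem_singleton] at ha
    rcases ha with rfl | rfl | rfl | rfl
    exacts [hee.1.2.1.1, hee.1.2.1.2, hee.1.1.1.1, hee.1.1.1.2]
  have hTne : ∀ ee ∈ T, ee.1.1 ≠ ee.1.2 ∧ ee.2.1 ≠ ee.2.2 := by
    intro ee hee
    have := mem_product.1 (mem_filter.1 hee).1
    exact ⟨hGne _ this.1, hGne _ this.2⟩
  have fib : ∀ (T' : Finset ((α × α) × (α × α))) (c b : ℕ), T' ⊆ T →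
      (∀ e ∈ G, c * #{ee ∈ T' | ee.1 = e} ≤ b) → c * #T' ≤ #J ^ 2 * b := by
    intro T' c b hT' h
    rw [card_eq_sum_card_fiberwise (f := Prod.fst) (t := G)
      (fun q hq => (mem_product.1 (mem_filter.1 (hT' hq)).1).1), mul_sum]
    exact (sum_le_card_nsmul _ _ b h).trans (Nat.mul_le_mul_right _ hGcard)
  have c4 : (#T4 : ℝ) ≤ 2 * j ^ 4 / p := by
    have := fib T4 (Fintype.card F) (2 * #J ^ 2) (filter_subset _ _) (by
      intro e _
      refine le_trans (Nat.mul_le_mul_left _ ?_) (card_fiber_good h2 J ρ (φ e))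
      refine card_le_card_of_injOn Prod.snd ?_ ?_
      · rintro ⟨e1, e2⟩ h
        simp only [T4, T, G, coe_filter, mem_filter, mem_product, Set.mem_ofPred_eq] at h ⊢
        obtain ⟨⟨⟨⟨-, h1⟩, h3⟩, -⟩, rfl⟩ := h
        exact ⟨h1.1, h1.2, h3.symm⟩
      · rintro ⟨e1, e2⟩ h ⟨e1', e2'⟩ h' h''
        simp only [coe_filter, Set.mem_ofPred_eq] at h h' h''
        rw [h.2, h'.2, h''])
    rw [le_div_iff₀ hp0, hp, hj]
    have : ((Fintype.card F * #T4 : ℕ) : ℝ) ≤ ((#J ^ 2 * (2 * #J ^ 2) : ℕ) : ℝ) :=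
      Nat.cast_le.2 this
    push_cast at this
    linarith
  have c3 : (#T3 : ℝ) ≤ 4 * j ^ 2 * p := by
    have := fib T3 1 (4 * Fintype.card F) (filter_subset _ _) (by
      intro e _
      have h5 := card_fiber_touch h2 J ρ hρ (φ e) e.1
      have h6 := card_fiber_touch h2 J ρ hρ (φ e) e.2
      refine le_trans ?_ ((Nat.add_le_add h5 h6).trans (le_of_eq (by ring)))
      rw [one_mul]
      refine le_trans ?_ (card_union_le _ _)
      refine card_le_card_of_injOn Prod.snd ?_ ?_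
      · rintro ⟨e1, e2⟩ h
        simp only [T3, T, G, coe_filter, mem_filter, mem_product, Set.mem_ofPred_eq, coe_union,
          Set.mem_union, mem_insert, mem_singleton] at h ⊢
        obtain ⟨⟨⟨⟨-, h1⟩, h3⟩, h4, -⟩, rfl⟩ := h
        rcases h4 with (h4 | h4) | (h4 | h4)
        · exact Or.inl ⟨h1.1, ⟨h1.2, h3.symm⟩, Or.inl h4⟩
        · exact Or.inr ⟨h1.1, ⟨h1.2, h3.symm⟩, Or.inl h4⟩
        · exact Or.inl ⟨h1.1, ⟨h1.2, h3.symm⟩, Or.inr h4⟩
        · exact Or.inr ⟨h1.1, ⟨h1.2, h3.symm⟩, Or.inr h4⟩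
      · rintro ⟨e1, e2⟩ h ⟨e1', e2'⟩ h' h''
        simp only [coe_filter, Set.mem_ofPred_eq] at h h' h''
        rw [h.2, h'.2, h''])
    rw [hp, hj]
    have : ((1 * #T3 : ℕ) : ℝ) ≤ ((#J ^ 2 * (4 * Fintype.card F) : ℕ) : ℝ) :=
      Nat.cast_le.2 this
    push_cast at this
    linarith
  have c2 : (#T2 : ℝ) ≤ 4 * j ^ 2 := by
    have := fib T2 1 4 (filter_subset _ _) (by
      intro e _
      rw [one_mul]
      have h5 : #(({e.1, e.2} : Finset α) ×ˢ ({e.1, e.2} : Finset α)) ≤ 4 := by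
        rw [card_product]
        exact Nat.mul_le_mul card_le_two card_le_two
      refine le_trans ?_ h5
      refine card_le_card_of_injOn Prod.snd ?_ ?_
      · rintro ⟨e1, e2⟩ h
        simp only [T2, coe_filter, mem_filter, Set.mem_ofPred_eq] at h
        obtain ⟨⟨-, h4⟩, rfl⟩ := h
        exact mem_coe.2 (mem_product.2 h4)
      · rintro ⟨e1, e2⟩ h ⟨e1', e2'⟩ h' h''
        simp only [coe_filter, Set.mem_ofPred_eq] at h h' h''
        rw [h.2, h'.2, h''])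
    rw [hj]
    have : ((1 * #T2 : ℕ) : ℝ) ≤ ((#J ^ 2 * 4 : ℕ) : ℝ) := Nat.cast_le.2 this
    push_cast at this
    linarith
  have cB : (#B : ℝ) ≤ 5 * (p * j) := by
    have : #B ≤ 5 * (Fintype.card F * #J) := by
      refine le_trans (card_le_card ?_) (card_bad_le J ρ hρ)
      intro q hq
      simp only [B, mem_filter] at hq ⊢
      exact ⟨hq.1, hq.2.2⟩
    rw [hp, hj]; exact_mod_cast this
  have s4 := sum_card_supp_le J hi hJ T4 supp (r := 4) (by
    intro ee hee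
    obtain ⟨hT, h3, h4⟩ := mem_filter.1 hee
    refine ⟨hTsupp ee hT, ?_⟩
    simp only [supp]
    rw [card_insert_of_notMem, card_insert_of_notMem h4, card_pair (hTne ee hT).1]
    rw [mem_insert, not_or]
    exact ⟨(hTne ee hT).2, h3⟩)
  have s3 := sum_card_supp_le J hi hJ T3 supp (r := 3) (by
    intro ee hee
    obtain ⟨hT, -, h4⟩ := mem_filter.1 hee
    refine ⟨hTsupp ee hT, ?_⟩
    rcases h4 with h4 | h4
    · refine le_trans ?_ (card_le_card (s := {ee.2.1, ee.1.1, ee.1.2}) ?_)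
      · rw [card_insert_of_notMem h4, card_pair (hTne ee hT).1]
      · intro a; simp only [supp, mem_insert, mem_singleton]; tauto
    · refine le_trans ?_ (card_le_card (s := {ee.2.2, ee.1.1, ee.1.2}) ?_)
      · rw [card_insert_of_notMem h4, card_pair (hTne ee hT).1]
      · intro a; simp only [supp, mem_insert, mem_singleton]; tauto)
  have s2 := sum_card_supp_le J hi hJ T2 supp (r := 2) (by
    intro ee hee
    obtain ⟨hT, -⟩ := mem_filter.1 hee
    refine ⟨hTsupp ee hT, ?_⟩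
    refine le_trans ?_ (card_le_card (s := {ee.1.1, ee.1.2}) ?_)
    · rw [card_pair (hTne ee hT).1]
    · intro a; simp only [supp, mem_insert, mem_singleton]; tauto)
  have sB := sum_card_supp_le J hi hJ B suppB (r := 2) (by
    intro q hq
    simp only [B, mem_filter, mem_product] at hq
    refine ⟨?_, by rw [card_pair hq.2.1]⟩
    intro a ha
    simp only [suppB, mem_insert, mem_singleton] at ha
    rcases ha with rfl | rfl
    exacts [hq.1.1, hq.1.2])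
  rw [← hj] at s4 s3 s2 sB
  set Θ : ℝ := 5 * p * (i : ℝ) ^ 2 / j +
    lam * (2 * (i : ℝ) ^ 4 / p + 4 * (i : ℝ) ^ 3 * p / j + 4 * (i : ℝ) ^ 2) with hΘ
  have hsum : ∑ J' ∈ powersetCard i J, ((#{q ∈ B | suppB q ⊆ J'} : ℝ) +
      lam * (#{τ ∈ T4 | supp τ ⊆ J'} + #{τ ∈ T3 | supp τ ⊆ J'} + #{τ ∈ T2 | supp τ ⊆ J'})) ≤
      ∑ _J' ∈ powersetCard i J, Θ := by
    rw [sum_add_distrib, ← mul_sum, sum_add_distrib, sum_add_distrib, sum_const,
      card_powersetCard, nsmul_eq_mul]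
    have hc : (0 : ℝ) ≤ (#J).choose i := by positivity
    have e4 : (#T4 : ℝ) * ((i : ℝ) / j) ^ 4 ≤ 2 * (i : ℝ) ^ 4 / p := by
      calc _ ≤ (2 * j ^ 4 / p) * ((i : ℝ) / j) ^ 4 := by gcongr
        _ = _ := by field_simp
    have e3 : (#T3 : ℝ) * ((i : ℝ) / j) ^ 3 ≤ 4 * (i : ℝ) ^ 3 * p / j := by
      calc _ ≤ (4 * j ^ 2 * p) * ((i : ℝ) / j) ^ 3 := by gcongr
        _ = _ := by field_simp
    have e2 : (#T2 : ℝ) * ((i : ℝ) / j) ^ 2 ≤ 4 * (i : ℝ) ^ 2 := by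
      calc _ ≤ (4 * j ^ 2) * ((i : ℝ) / j) ^ 2 := by gcongr
        _ = _ := by field_simp
    have eB : (#B : ℝ) * ((i : ℝ) / j) ^ 2 ≤ 5 * p * (i : ℝ) ^ 2 / j := by
      calc _ ≤ (5 * (p * j)) * ((i : ℝ) / j) ^ 2 := by gcongr
        _ = _ := by field_simp
    have f4 := s4.trans (mul_le_mul_of_nonneg_left e4 hc)
    have f3 := s3.trans (mul_le_mul_of_nonneg_left e3 hc)
    have f2 := s2.trans (mul_le_mul_of_nonneg_left e2 hc)
    have fB := sB.trans (mul_le_mul_of_nonneg_left eB hc)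
    have := mul_le_mul_of_nonneg_left (add_le_add (add_le_add f4 f3) f2) hlam
    rw [hΘ]
    nlinarith
  obtain ⟨J', hJ', hle⟩ := exists_le_of_sum_le (powersetCard_nonempty.2 hi) hsum
  rw [mem_powersetCard] at hJ'
  let E : Finset (α × α) := {e ∈ J' ×ˢ J' | Good J ρ e.1 e.2}
  have hS : (#{ee ∈ E ×ˢ E | fx (ρ ee.1.1) (ρ ee.1.2) = fx (ρ ee.2.1) (ρ ee.2.2)} : ℝ) ≤
      #{τ ∈ T4 | supp τ ⊆ J'} + #{τ ∈ T3 | supp τ ⊆ J'} + #{τ ∈ T2 | supp τ ⊆ J'} := by
    norm_cast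
    refine le_trans ?_ ((card_union_le _ _).trans (Nat.add_le_add_right (card_union_le _ _) _))
    refine card_le_card ?_
    intro ee hee
    simp only [E, mem_filter, mem_product] at hee
    obtain ⟨⟨⟨⟨a1, a2⟩, a3⟩, ⟨b1, b2⟩, b3⟩, hx⟩ := hee
    have hT : ee ∈ T := by
      simp only [T, G, mem_filter, mem_product]
      exact ⟨⟨⟨⟨hJ'.1 a1, hJ'.1 a2⟩, a3⟩, ⟨hJ'.1 b1, hJ'.1 b2⟩, b3⟩, hx⟩
    have hs : supp ee ⊆ J' := by
      intro a ha
      simp only [supp, mem_insert, mem_singleton] at ha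
      rcases ha with rfl | rfl | rfl | rfl
      exacts [b1, b2, a1, a2]
    simp only [T4, T3, T2, mem_union, mem_filter, hT, hs, true_and, and_true]
    tauto
  refine ⟨J', hJ'.1, hJ'.2, E, filter_subset _ _, fun e he => (mem_filter.1 he).2.1, _, hS, ?_, ?_⟩
  · refine le_trans (le_of_eq ?_) hS
    congr 1
    refine card_bij (fun ee _ => (ee.1.swap, ee.2.swap)) ?_ ?_ ?_
    · intro ee hee
      simp only [E, mem_filter, mem_product, Prod.fst_swap, Prod.snd_swap] at hee ⊢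
      obtain ⟨⟨⟨⟨a1, a2⟩, a3⟩, ⟨b1, b2⟩, b3⟩, hx⟩ := hee
      exact ⟨⟨⟨⟨a2, a1⟩, a3.symm⟩, ⟨b2, b1⟩, b3.symm⟩, hx⟩
    · intro ee _ ee' _ h
      simp only [Prod.mk.injEq, Prod.swap_inj] at h
      exact Prod.ext h.1 h.2
    · intro ee hee
      refine ⟨(ee.1.swap, ee.2.swap), ?_, by simp⟩
      simp only [E, mem_filter, mem_product, Prod.fst_swap, Prod.snd_swap] at hee ⊢
      obtain ⟨⟨⟨⟨a1, a2⟩, a3⟩, ⟨b1, b2⟩, b3⟩, hx⟩ := hee
      exact ⟨⟨⟨⟨a2, a1⟩, a3.symm⟩, ⟨b2, b1⟩, b3.symm⟩, hx⟩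
  · have hE : i ^ 2 ≤ i + #E + #{q ∈ B | suppB q ⊆ J'} := by
      rw [sq, ← hJ'.2, ← card_product]
      refine le_trans (card_le_card ?_) ((card_union_le _ _).trans (Nat.add_le_add_right
        ((card_union_le (J'.image fun a => (a, a)) E).trans
          (Nat.add_le_add_right card_image_le _)) _))
      rintro ⟨a, b⟩ h
      rw [mem_product] at h
      simp only [mem_union, mem_image, Prod.mk.injEq, E, B, mem_filter, mem_product, suppB]
      by_cases hab : a = b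
      · exact Or.inl (Or.inl ⟨a, h.1, rfl, hab⟩)
      by_cases hg : Good J ρ a b
      · exact Or.inl (Or.inr ⟨h, hg⟩)
      · refine Or.inr ⟨⟨⟨hJ'.1 h.1, hJ'.1 h.2⟩, hab, hg⟩, ?_⟩
        intro c hc
        simp only [mem_insert, mem_singleton] at hc
        rcases hc with rfl | rfl
        exacts [h.1, h.2]
    have hE' : (i : ℝ) ^ 2 ≤ i + #E + #{q ∈ B | suppB q ⊆ J'} := by exact_mod_cast hE
    linarith

end Select

end Pool.Agent.P.MP_7e54d7_co
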