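import Pool.Agent.P.MP_7e54d7_co.Block
import Pool.Agent.P.MP_7e54d7_co.Coll
import Pool.Agent.P.MP_7e54d7_co.Select

/-!
# The random core
-/

open Finset

namespace Pool.Agent.P.MP_7e54d7_co

variable {p : ℕ} [hp : Fact p.Prime] {R : ℕ}

/-- The lift number `a` of the point `(x, x^2)` modulo `p`. -/
def pt (x : ZMod p) (a : Fin R × Fin R) : ℤ × ℤ :=
  ((x.val : ℤ) + p * ((a.1 : ℕ) : ℤ), ((x ^ 2).val : ℤ) + p * ((a.2 : ℕ) : ℤ))

/-- Reduction modulo `p`. -/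
def res (p : ℕ) (P : ℤ × ℤ) : ZMod p × ZMod p := ((P.1 : ZMod p), (P.2 : ZMod p))

lemma res_pt (x : ZMod p) (a : Fin R × Fin R) : res p (pt x a) = (x, x ^ 2) := by
  simp [res, pt]

lemma res_sub (P Q : ℤ × ℤ) : res p (P - Q) = res p P - res p Q := by
  simp [res]

lemma pt_inj {x : ZMod p} {a b : Fin R × Fin R} (h : pt x a = pt x b) : a = b := by
  have hp0 : (p : ℤ) ≠ 0 := by exact_mod_cast hp.out.ne_zero
  simp only [pt, Prod.mk.injEq, add_right_inj, mul_eq_mul_left_iff, hp0, or_false,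
    Nat.cast_inj] at h
  exact Prod.ext (Fin.ext h.1) (Fin.ext h.2)

lemma pt_bounds (x : ZMod p) (a : Fin R × Fin R) :
    0 ≤ (pt x a).1 ∧ (pt x a).1 < (p * R : ℕ) ∧ 0 ≤ (pt x a).2 ∧ (pt x a).2 < (p * R : ℕ) := by
  have h1 : (x.val : ℤ) < p := by exact_mod_cast ZMod.val_lt x
  have h2 : ((x ^ 2).val : ℤ) < p := by exact_mod_cast ZMod.val_lt (x ^ (2 : ℕ))
  have h3 : ((a.1 : ℕ) : ℤ) + 1 ≤ R := by exact_mod_cast a.1.2
  have h4 : ((a.2 : ℕ) : ℤ) + 1 ≤ R := by exact_mod_cast a.2.2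
  have h5 : (0 : ℤ) ≤ p := by positivity
  simp only [pt]
  push_cast
  refine ⟨by positivity, by nlinarith, by positivity, by nlinarith⟩

lemma pt_sub_mem_box (x y : ZMod p) (a b : Fin R × Fin R) : pt x a - pt y b ∈ box (p * R) := by
  obtain ⟨h1, h2, h3, h4⟩ := pt_bounds x a
  obtain ⟨h5, h6, h7, h8⟩ := pt_bounds y b
  rw [mem_box, abs_lt, abs_lt, Prod.fst_sub, Prod.snd_sub]
  omega

lemma two_ne_zero_zmod (hp2 : p ≠ 2) : (2 : ZMod p) ≠ 0 := by
  intro h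
  have : ((2 : ℕ) : ZMod p) = 0 := by exact_mod_cast h
  rw [ZMod.natCast_eq_zero_iff] at this
  exact hp2 ((Nat.prime_dvd_prime_iff_eq hp.out Nat.prime_two).1 this)

lemma sidon_pt (hp2 : p ≠ 2) {x y z w : ZMod p} {a b c d : Fin R × Fin R} (hxy : x ≠ y)
    (h : pt x a - pt y b = pt z c - pt w d) : x = z ∧ y = w := by
  have h1 := congrArg (res p) h
  simp only [res_sub, res_pt, Prod.mk_sub_mk, Prod.mk.injEq] at h1
  obtain ⟨h1, h2⟩ := h1
  have h3 : (x - y) * ((x + y) - (z + w)) = 0 := by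
    linear_combination h2 - (z + w) * h1
  have h4 : x + y = z + w := by
    rcases mul_eq_zero.1 h3 with h | h
    · exact absurd (sub_eq_zero.1 h) hxy
    · exact sub_eq_zero.1 h
  have h5 := two_ne_zero_zmod hp2
  constructor
  · apply mul_left_cancel₀ h5; linear_combination h1 + h4
  · apply mul_left_cancel₀ h5; linear_combination h4 - h1

/-- Repeated distances of the configuration `ξ`. -/
def collq (M : ℕ) (ξ : ZMod p → Fin R × Fin R) :
    Finset ((ZMod p × ZMod p) × (ZMod p × ZMod p)) :=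
  {q | q.1.1 ≠ q.1.2 ∧ q.2.1 ≠ q.2.2 ∧ q.2 ≠ q.1 ∧ q.2 ≠ q.1.swap ∧
    qf M (pt q.1.1 (ξ q.1.1) - pt q.1.2 (ξ q.1.2)) =
      qf M (pt q.2.1 (ξ q.2.1) - pt q.2.2 (ξ q.2.2))}

lemma sum_collq_le (hp2 : p ≠ 2) (M : ℕ) :
    (∑ ξ : ZMod p → Fin R × Fin R, #(collq M ξ)) * Fintype.card (Fin R × Fin R) ^ 2 ≤
      #(Coll M (p * R)) * Fintype.card (ZMod p → Fin R × Fin R) := by
  let Z : Finset ((ZMod p → Fin R × Fin R) × ((ZMod p × ZMod p) × (ZMod p × ZMod p))) :=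
    {z | z.2 ∈ collq M z.1}
  have hZ : ∑ ξ : ZMod p → Fin R × Fin R, #(collq M ξ) = #Z := by
    rw [card_eq_sum_card_fiberwise (f := Prod.fst) (t := univ) (by simp)]
    refine sum_congr rfl fun ξ _ => ?_
    refine card_bij (fun q _ => (ξ, q)) ?_ ?_ ?_
    · intro q hq; simpa [Z] using hq
    · intro q _ q' _ h; exact (Prod.ext_iff.1 h).2
    · rintro ⟨ξ', q⟩ h
      simp only [Z, mem_filter, mem_univ, true_and] at h
      obtain ⟨h, rfl⟩ := h
      exact ⟨q, h, rfl⟩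
  let g : (ZMod p → Fin R × Fin R) × ((ZMod p × ZMod p) × (ZMod p × ZMod p)) →
      (ℤ × ℤ) × (ℤ × ℤ) := fun z =>
    (pt z.2.1.1 (z.1 z.2.1.1) - pt z.2.1.2 (z.1 z.2.1.2),
      pt z.2.2.1 (z.1 z.2.2.1) - pt z.2.2.2 (z.1 z.2.2.2))
  have hg : ∀ z ∈ Z, g z ∈ Coll M (p * R) := by
    rintro ⟨ξ, ⟨x, y⟩, ⟨z, w⟩⟩ h
    simp only [Z, collq, mem_filter, mem_univ, true_and, ne_eq, Prod.mk.injEq,
      Prod.swap_prod_mk] at h
    obtain ⟨h1, h2, h3, h4, h5⟩ := h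
    simp only [Coll, mem_filter, mem_product, g]
    refine ⟨⟨pt_sub_mem_box _ _ _ _, pt_sub_mem_box _ _ _ _⟩, fun h => ?_, fun h => ?_, h5⟩
    · exact h3 (sidon_pt hp2 h2 h)
    · rw [neg_sub] at h
      exact h4 (sidon_pt hp2 h2 h)
  rw [hZ, card_eq_sum_card_fiberwise (f := g) (t := Coll M (p * R)) hg, sum_mul]
  refine (sum_le_card_nsmul _ _ _ fun c _ => ?_).trans (le_of_eq (smul_eq_mul _ _))
  rcases (({z ∈ Z | g z = c} : Finset _)).eq_empty_or_nonempty with h | ⟨⟨ξ₀, ⟨x, y⟩, ⟨z, w⟩⟩, h⟩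
  · rw [h]; simp
  simp only [Z, collq, mem_filter, mem_univ, true_and, ne_eq, Prod.mk.injEq,
    Prod.swap_prod_mk] at h
  obtain ⟨⟨h1, h2, h3, h4, -⟩, hc⟩ := h
  have hq : ∀ u ∈ ({z ∈ Z | g z = c} : Finset _), u.2 = ((x, y), (z, w)) := by
    rintro ⟨ξ, ⟨x', y'⟩, ⟨z', w'⟩⟩ hu
    have := hc.trans (mem_filter.1 hu).2.symm
    simp only [g, Prod.mk.injEq] at this
    obtain ⟨rfl, rfl⟩ := sidon_pt hp2 h1 this.1
    obtain ⟨rfl, rfl⟩ := sidon_pt hp2 h2 this.2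
    rfl
  have hinj : Set.InjOn Prod.fst (↑({z ∈ Z | g z = c} : Finset _) :
      Set ((ZMod p → Fin R × Fin R) × ((ZMod p × ZMod p) × (ZMod p × ZMod p)))) := by
    intro u hu u' hu' h
    exact Prod.ext h ((hq u hu).trans (hq u' hu').symm)
  rw [← card_image_of_injOn hinj]
  have hev : ∀ ξ ∈ ({z ∈ Z | g z = c} : Finset _).image Prod.fst,
      pt x (ξ x) - pt y (ξ y) = c.1 ∧ pt z (ξ z) - pt w (ξ w) = c.2 := by
    intro ξ hξ
    obtain ⟨u, hu, rfl⟩ := mem_image.1 hξ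
    have h5 := (mem_filter.1 hu).2
    simp only [g, hq u hu] at h5
    rw [← h5]
    exact ⟨rfl, rfl⟩
  by_cases hz : z = x ∨ z = y
  · have hwx : w ≠ x := by
      rintro rfl
      rcases hz with rfl | rfl
      · exact h2 rfl
      · exact h4 ⟨rfl, rfl⟩
    have hwy : w ≠ y := by
      rintro rfl
      rcases hz with rfl | rfl
      · exact h3 ⟨rfl, rfl⟩
      · exact h2 rfl
    refine card_mul_sq_le _ hwx.symm fun ξ hξ ξ' hξ' hoff => ?_
    obtain ⟨e1, e2⟩ := hev ξ hξ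
    obtain ⟨e1', e2'⟩ := hev ξ' hξ'
    have ey : ξ y = ξ' y := hoff y (Ne.symm h1) hwy.symm
    have ex : ξ x = ξ' x := by
      rw [← e1', ey] at e1
      exact pt_inj (sub_left_injective e1)
    have ez : ξ z = ξ' z := by rcases hz with rfl | rfl <;> assumption
    have ew : ξ w = ξ' w := by
      rw [← e2', ez] at e2
      exact pt_inj (sub_right_injective e2)
    ext1 u
    by_cases hu1 : u = x
    · rw [hu1, ex]
    by_cases hu2 : u = w
    · rw [hu2, ew]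
    exact hoff u hu1 hu2
  · push Not at hz
    refine card_mul_sq_le _ hz.1.symm fun ξ hξ ξ' hξ' hoff => ?_
    obtain ⟨e1, e2⟩ := hev ξ hξ
    obtain ⟨e1', e2'⟩ := hev ξ' hξ'
    have ey : ξ y = ξ' y := hoff y (Ne.symm h1) hz.2.symm
    have ex : ξ x = ξ' x := by
      rw [← e1', ey] at e1
      exact pt_inj (sub_left_injective e1)
    have ew : ξ w = ξ' w := by
      by_cases hw : w = x
      · rw [hw, ex]
      · exact hoff w hw (Ne.symm h2)
    have ez : ξ z = ξ' z := by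
      rw [← e2', ew] at e2
      exact pt_inj (sub_left_injective e2)
    ext1 u
    by_cases hu1 : u = x
    · rw [hu1, ex]
    by_cases hu2 : u = z
    · rw [hu2, ez]
    exact hoff u hu1 hu2

lemma exists_lifts {R' : ℕ} (α β : ZMod p) (v : ℤ) (hv : |v| < (p * R' : ℕ))
    (h : (v : ZMod p) = α - β) :
    ∃ B : Finset (Fin (2 * R') × Fin (2 * R')), (∀ q ∈ B,
      (α.val : ℤ) + p * ((q.1 : ℕ) : ℤ) - ((β.val : ℤ) + p * ((q.2 : ℕ) : ℤ)) = v) ∧ R' ≤ #B := by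
  have h1 : ((v - α.val + β.val : ℤ) : ZMod p) = 0 := by
    push_cast
    simp [h]
  rw [ZMod.intCast_zmod_eq_zero_iff_dvd] at h1
  obtain ⟨δ, hδ⟩ := h1
  have ha : (α.val : ℤ) < p := by exact_mod_cast ZMod.val_lt α
  have hb : (β.val : ℤ) < p := by exact_mod_cast ZMod.val_lt β
  have hp0 : (0 : ℤ) < p := by exact_mod_cast hp.out.pos
  push_cast at hv
  rw [abs_lt] at hv
  have hδ1 : δ ≤ R' := by
    by_contra hcon
    have : (p : ℤ) * (R' + 1) ≤ p * δ := mul_le_mul_of_nonneg_left (by omega) hp0.le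
    have h0 : (0 : ℤ) ≤ α.val := by positivity
    nlinarith
  have hδ2 : -δ ≤ R' := by
    by_contra hcon
    have : (p : ℤ) * (R' + 1) ≤ p * (-δ) := mul_le_mul_of_nonneg_left (by omega) hp0.le
    have h0 : (0 : ℤ) ≤ β.val := by positivity
    nlinarith
  let f : Fin R' → Fin (2 * R') × Fin (2 * R') := fun k =>
    (⟨k + δ.toNat, by have := k.2; omega⟩, ⟨k + (-δ).toNat, by have := k.2; omega⟩)
  refine ⟨univ.image f, ?_, ?_⟩
  · intro q hq
    obtain ⟨k, -, rfl⟩ := mem_image.1 hq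
    simp only [f]
    push_cast
    have : (δ.toNat : ℤ) - ((-δ).toNat : ℤ) = δ := by omega
    linear_combination p * this - hδ
  · rw [card_image_of_injective, card_univ, Fintype.card_fin]
    intro k k' hk
    simp only [f, Prod.mk.injEq, Fin.mk.injEq] at hk
    exact Fin.ext (by omega)

/-- No difference of two points of `J'` is a difference of two core points outside `X`. -/
def Unb (J' : Finset (ℤ × ℤ)) (X : Finset (ZMod p)) (ξ : ZMod p → Fin R × Fin R) : Prop :=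
  ∀ P ∈ J', ∀ P' ∈ J', ∀ x ∉ X, ∀ y ∉ X, x ≠ y → pt x (ξ x) - pt y (ξ y) ≠ P - P'

/-- Vector differences are distinct. -/
def Sidon (J : Finset (ℤ × ℤ)) : Prop :=
  ∀ P ∈ J, ∀ P' ∈ J, ∀ Q ∈ J, ∀ Q' ∈ J, P ≠ P' → P - P' = Q - Q' → P = Q ∧ P' = Q'

/-- Small diameter. -/
def Small (N : ℕ) (J : Finset (ℤ × ℤ)) : Prop :=
  ∀ P ∈ J, ∀ P' ∈ J, |P.1 - P'.1| < N ∧ |P.2 - P'.2| < N

/-- The sets to which the blocking lemma applies. -/
def Nice (p : ℕ) [Fact p.Prime] (R' i : ℕ) (Θ : ℝ) (J' : Finset (ℤ × ℤ)) : Prop :=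
  Sidon J' ∧ Small (p * R') J' ∧ ∃ E ⊆ J' ×ˢ J', (∀ e ∈ E, (res p e.1).1 ≠ (res p e.2).1) ∧
    ∃ S : ℝ,
      (#{ee ∈ E ×ˢ E | fx (res p ee.1.1) (res p ee.1.2) = fx (res p ee.2.1) (res p ee.2.2)} : ℝ)
        ≤ S ∧
      (#{ee ∈ E ×ˢ E | fx (res p ee.1.2) (res p ee.1.1) = fx (res p ee.2.2) (res p ee.2.1)} : ℝ)
        ≤ S ∧
      (i : ℝ) ^ 2 - i - #E + 25 / (4 * (R' : ℝ) ^ 2) * S ≤ Θ

lemma card_touch_le {ε ι : Type*} [Fintype ι] [DecidableEq ι] (E : Finset ε) (φ : ε → ι)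
    (X : Finset ι) {S w : ℝ} (hw : 0 < w) (hS : (#{ee ∈ E ×ˢ E | φ ee.1 = φ ee.2} : ℝ) ≤ S) :
    (#{e ∈ E | φ e ∈ X} : ℝ) ≤ #X * w / 2 + S / (2 * w) := by
  have h1 : #{e ∈ E | φ e ∈ X} = ∑ x ∈ X, #{e ∈ E | φ e = x} := by
    rw [card_eq_sum_card_fiberwise (f := φ) (s := {e ∈ E | φ e ∈ X}) (t := X)
      (fun e he => (mem_filter.1 he).2)]
    refine sum_congr rfl fun x hx => ?_
    congr 1
    ext e
    simp only [mem_filter]
    exact ⟨fun h => ⟨h.1.1, h.2⟩, fun h => ⟨⟨h.1, h.2 ▸ hx⟩, h.2⟩⟩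
  rw [card_pairs_eq_sum_sq] at hS
  push_cast at hS
  have h2 : ∑ x ∈ X, (#{e ∈ E | φ e = x} : ℝ) ^ 2 ≤ S :=
    (sum_le_sum_of_subset_of_nonneg (subset_univ X) fun _ _ _ => by positivity).trans hS
  rw [h1]
  push_cast
  calc ∑ x ∈ X, (#{e ∈ E | φ e = x} : ℝ)
      ≤ ∑ x ∈ X, (w / 2 + (#{e ∈ E | φ e = x} : ℝ) ^ 2 / (2 * w)) := by
        refine sum_le_sum fun x _ => ?_
        set d : ℝ := (#{e ∈ E | φ e = x} : ℝ)
        have : w / 2 + d ^ 2 / (2 * w) - d = (d - w) ^ 2 / (2 * w) := by field_simp; ring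
        have h3 : 0 ≤ (d - w) ^ 2 / (2 * w) := by positivity
        linarith
    _ = #X * w / 2 + (∑ x ∈ X, (#{e ∈ E | φ e = x} : ℝ) ^ 2) / (2 * w) := by
        rw [sum_add_distrib, sum_const, nsmul_eq_mul, sum_div]; ring
    _ ≤ _ := by gcongr

theorem prob_unb (hp2 : p ≠ 2) {R' i : ℕ} (hR' : 0 < R') {Θ : ℝ} {J' : Finset (ℤ × ℤ)}
    (hJ' : Nice p R' i Θ J') (X : Finset (ZMod p))
    (A : Finset (ZMod p → Fin (2 * R') × Fin (2 * R'))) (hA : ∀ ξ ∈ A, Unb J' X ξ) :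
    (#A : ℝ) ≤ Fintype.card (ZMod p → Fin (2 * R') × Fin (2 * R')) *
      Real.exp (-(((i : ℝ) ^ 2 - i - Θ - #X * (4 * (R' : ℝ) ^ 2)) / (16 * (4 * (R' : ℝ) ^ 2)))) := by
  classical
  obtain ⟨hsid, hsm, E, hE, hne, S, hSc, hSl, hΘ⟩ := hJ'
  have h2 := two_ne_zero_zmod hp2
  have : Nonempty (Fin (2 * R')) := ⟨⟨0, by omega⟩⟩
  set w : ℝ := 4 * (R' : ℝ) ^ 2 with hw
  have hw0 : 0 < w := by positivity
  have hcard : (Fintype.card (Fin (2 * R') × Fin (2 * R')) : ℝ) = w := by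
    rw [Fintype.card_prod, Fintype.card_fin]; push_cast; ring
  let cen : (ℤ × ℤ) × (ℤ × ℤ) → ZMod p := fun e => fx (res p e.1) (res p e.2)
  let lf : (ℤ × ℤ) × (ℤ × ℤ) → ZMod p := fun e => fx (res p e.2) (res p e.1)
  have hcl : ∀ e ∈ E, cen e ≠ lf e := by
    intro e he h
    have := fx_sub h2 (hne e he)
    exact hne e he (sub_eq_zero.1 (by rw [← this]; exact sub_eq_zero.2 h))
  let E1 := {e ∈ E | cen e ∉ X ∧ lf e ∉ X}
  have hE1 : (#E : ℝ) ≤ #E1 + #X * w + S / w := by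
    have h3 : #E ≤ #E1 + #{e ∈ E | cen e ∈ X} + #{e ∈ E | lf e ∈ X} := by
      refine le_trans (card_le_card ?_) ((card_union_le _ _).trans
        (Nat.add_le_add_right (card_union_le _ _) _))
      intro e he
      simp only [E1, mem_union, mem_filter, he, true_and]
      tauto
    have h4 := card_touch_le E cen X hw0 hSc
    have h5 := card_touch_le E lf X hw0 hSl
    have h6 : (#E : ℝ) ≤ #E1 + #{e ∈ E | cen e ∈ X} + #{e ∈ E | lf e ∈ X} := by exact_mod_cast h3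
    have h7 : S / (2 * w) + S / (2 * w) = S / w := by field_simp; ring
    linarith
  obtain ⟨C, hC⟩ := exists_cut E1 cen lf fun e he => hcl e (mem_filter.1 he).1
  set E2 := {e ∈ E1 | cen e ∈ C ∧ lf e ∉ C} with hE2
  have hsub : E2 ⊆ E := (filter_subset _ _).trans (filter_subset _ _)
  have hmono : ∀ φ : (ℤ × ℤ) × (ℤ × ℤ) → ZMod p, (#{ee ∈ E2 ×ˢ E2 | φ ee.1 = φ ee.2} : ℝ) ≤
      #{ee ∈ E ×ˢ E | φ ee.1 = φ ee.2} := fun φ => by
    exact_mod_cast card_le_card (filter_subset_filter _ (product_subset_product hsub hsub))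
  have hb := blocking E2 cen lf C (fun e he => (mem_filter.1 he).2.1)
    (fun e he => (mem_filter.1 he).2.2)
    (fun e (a b : Fin (2 * R') × Fin (2 * R')) => pt (cen e) a - pt (lf e) b = e.1 - e.2)
    (fun e _ a b b' h h' => pt_inj (sub_right_injective (h.trans h'.symm)))
    (fun e _ a a' b h h' => pt_inj (sub_left_injective (h.trans h'.symm)))
    (by
      intro e he
      have he' := mem_product.1 (hE (hsub he))
      obtain ⟨s1, s2⟩ := hsm _ he'.1 _ he'.2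
      obtain ⟨B1, hB1, c1⟩ := exists_lifts (R' := R') (cen e) (lf e) (e.1.1 - e.2.1) s1 (by
        rw [fx_sub h2 (hne e (hsub he))]; simp [res])
      obtain ⟨B2, hB2, c2⟩ := exists_lifts (R' := R') (cen e ^ 2) (lf e ^ 2) (e.1.2 - e.2.2) s2 (by
        rw [fx_sq_sub h2 (hne e (hsub he))]; simp [res])
      refine ⟨(B1 ×ˢ B2).image fun q => ((q.1.1, q.2.1), (q.1.2, q.2.2)), ?_, ?_⟩
      · intro q hq
        obtain ⟨r, hr, rfl⟩ := mem_image.1 hq
        rw [mem_product] at hr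
        exact Prod.ext (hB1 _ hr.1) (hB2 _ hr.2)
      · rw [card_image_of_injective, card_product, Fintype.card_prod, Fintype.card_fin]
        · nlinarith [Nat.mul_le_mul c1 c2]
        · rintro ⟨⟨a, b⟩, c, d⟩ ⟨⟨a', b'⟩, c', d'⟩ h
          simp only [Prod.mk.injEq] at h ⊢
          tauto)
    (by
      intro e he e' he' hee hc hl a b h h'
      have h1 := mem_product.1 (hE (hsub he))
      have h1' := mem_product.1 (hE (hsub he'))
      rw [← hc, ← hl] at h'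
      have := hsid _ h1.1 _ h1.2 _ h1'.1 _ h1'.2
        (fun h => hne e (hsub he) (by rw [h])) (h.symm.trans h')
      exact hee (Prod.ext this.1 this.2))
    S S ((hmono lf).trans hSl) ((hmono cen).trans hSc) A
    (by
      intro ξ hξ e he
      have h1 := mem_product.1 (hE (hsub he))
      have h3 := (mem_filter.1 (mem_filter.1 he).1).2
      exact hA ξ hξ _ h1.1 _ h1.2 _ h3.1 _ h3.2 (hcl e (hsub he)))
  rw [hcard] at hb
  refine hb.trans (mul_le_mul_of_nonneg_left (Real.exp_le_exp.2 ?_) (by positivity))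
  have hC' : (#E1 : ℝ) ≤ 4 * #E2 := by exact_mod_cast hC
  have e1 : -((#E2 : ℝ) / (4 * w)) + S / w ^ 2 + S / (2 * w ^ 2) =
      -((4 * #E2 - 24 * (S / w)) / (16 * w)) := by field_simp; ring
  rw [e1, neg_le_neg_iff]
  refine div_le_div_of_nonneg_right ?_ (by positivity)
  have e2 : 25 / w * S = 25 * (S / w) := by ring
  linarith

theorem exists_core (hp2 : p ≠ 2) {R' i Md : ℕ} (hR' : 0 < R') (M : ℕ) {Θ : ℝ}
    (G : Finset (ℤ × ℤ)) (hMd : Md ≤ p)
    (hColl : 2 * #(Coll M (p * (2 * R'))) ≤ Md * (4 * R' ^ 2) ^ 2)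
    (hUnion : (#G : ℝ) ^ i * (p : ℝ) ^ Md *
      Real.exp (-(((i : ℝ) ^ 2 - i - Θ - Md * (4 * (R' : ℝ) ^ 2)) / (16 * (4 * (R' : ℝ) ^ 2)))) <
        1 / 2) :
    ∃ (ξ : ZMod p → Fin (2 * R') × Fin (2 * R')) (X : Finset (ZMod p)),
      (∀ q ∈ collq M ξ, q.1.1 ∈ X) ∧
      ∀ J' ⊆ G, #J' = i → Nice p R' i Θ J' → ¬ Unb J' X ξ := by
  classical
  set N : ℝ := (Fintype.card (ZMod p → Fin (2 * R') × Fin (2 * R')) : ℝ) with hN
  have : Nonempty (Fin (2 * R')) := ⟨⟨0, by omega⟩⟩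
  have hN0 : 0 < N := by rw [hN]; exact_mod_cast Fintype.card_pos
  set ε := Real.exp (-(((i : ℝ) ^ 2 - i - Θ - Md * (4 * (R' : ℝ) ^ 2)) /
    (16 * (4 * (R' : ℝ) ^ 2)))) with hε
  let Fam := {J' ∈ powersetCard i G | Nice p R' i Θ J'} ×ˢ
    powersetCard Md (univ : Finset (ZMod p))
  let Bad1 := Fam.biUnion fun f =>
    (univ : Finset (ZMod p → Fin (2 * R') × Fin (2 * R'))).filter fun ξ => Unb f.1 f.2 ξ
  let Bad2 := (univ : Finset (ZMod p → Fin (2 * R') × Fin (2 * R'))).filter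
    fun ξ => Md < #(collq M ξ)
  have hFam : (#Fam : ℝ) ≤ (#G : ℝ) ^ i * (p : ℝ) ^ Md := by
    have : #Fam ≤ #G ^ i * p ^ Md := by
      rw [card_product]
      refine Nat.mul_le_mul ((card_filter_le _ _).trans ?_) ?_
      · rw [card_powersetCard]; exact Nat.choose_le_pow _ _
      · rw [card_powersetCard, card_univ, ZMod.card]; exact Nat.choose_le_pow _ _
    exact_mod_cast this
  have h1 : (#Bad1 : ℝ) < N / 2 := by
    have h2 : (#Bad1 : ℝ) ≤ #Fam * (N * ε) := by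
      refine (Nat.cast_le.2 card_biUnion_le).trans ?_
      push_cast
      refine (sum_le_card_nsmul _ _ (N * ε) fun f hf => ?_).trans (le_of_eq (nsmul_eq_mul _ _))
      rw [mem_product, mem_filter] at hf
      have := prob_unb hp2 hR' hf.1.2 f.2 (univ.filter fun ξ => Unb f.1 f.2 ξ)
        (fun ξ hξ => (mem_filter.1 hξ).2)
      rwa [(mem_powersetCard.1 hf.2).2] at this
    have h3 : (#Fam : ℝ) * (N * ε) ≤ (#G : ℝ) ^ i * (p : ℝ) ^ Md * (N * ε) := by gcongr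
    nlinarith
  have h2 : (#Bad2 : ℝ) ≤ N / 2 := by
    have h3 := sum_collq_le (R := 2 * R') hp2 M
    have h4 : #Bad2 * (Md + 1) ≤
        ∑ ξ : ZMod p → Fin (2 * R') × Fin (2 * R'), #(collq M ξ) := by
      refine le_trans ?_ (sum_le_sum_of_subset (subset_univ Bad2))
      rw [← smul_eq_mul]
      exact card_nsmul_le_sum _ _ _ fun ξ hξ => (mem_filter.1 hξ).2
    rw [Fintype.card_prod, Fintype.card_fin] at h3
    have h5 : (2 * #Bad2) * ((Md + 1) * (4 * R' ^ 2) ^ 2) ≤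
        Fintype.card (ZMod p → Fin (2 * R') × Fin (2 * R')) * ((Md + 1) * (4 * R' ^ 2) ^ 2) := by
      calc (2 * #Bad2) * ((Md + 1) * (4 * R' ^ 2) ^ 2)
          = 2 * ((#Bad2 * (Md + 1)) * (2 * R' * (2 * R')) ^ 2) := by ring
        _ ≤ 2 * (#(Coll M (p * (2 * R'))) *
            Fintype.card (ZMod p → Fin (2 * R') × Fin (2 * R'))) :=
          Nat.mul_le_mul_left _ ((Nat.mul_le_mul_right _ h4).trans h3)
        _ = Fintype.card (ZMod p → Fin (2 * R') × Fin (2 * R')) *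
            (2 * #(Coll M (p * (2 * R')))) := by ring
        _ ≤ _ := Nat.mul_le_mul_left _ (hColl.trans (Nat.mul_le_mul_right _ (Nat.le_succ _)))
    have h6 := Nat.le_of_mul_le_mul_right h5 (by positivity)
    have h7 : ((2 * #Bad2 : ℕ) : ℝ) ≤ N := by rw [hN]; exact_mod_cast h6
    push_cast at h7
    linarith
  have h3 : #(Bad1 ∪ Bad2) < #(univ : Finset (ZMod p → Fin (2 * R') × Fin (2 * R'))) := by
    have : (#(Bad1 ∪ Bad2) : ℝ) < N := by
      have : (#(Bad1 ∪ Bad2) : ℝ) ≤ #Bad1 + #Bad2 := by exact_mod_cast card_union_le _ _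
      linarith
    rw [hN] at this
    exact_mod_cast this
  obtain ⟨ξ, -, hξ⟩ := exists_mem_notMem_of_card_lt_card h3
  rw [mem_union, not_or] at hξ
  have h4 : #((collq M ξ).image fun q => q.1.1) ≤ Md := by
    refine card_image_le.trans ?_
    have := hξ.2
    simp only [Bad2, mem_filter, mem_univ, true_and, not_lt] at this
    exact this
  obtain ⟨X, hX1, -, hX2⟩ := exists_subsuperset_card_eq (subset_univ _) h4
    (by rw [card_univ, ZMod.card]; exact hMd)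
  refine ⟨ξ, X, fun q hq => hX1 (mem_image_of_mem _ hq), fun J' hG hc hn hu => hξ.1 ?_⟩
  simp only [Bad1, mem_biUnion, mem_filter, mem_univ, true_and]
  refine ⟨(J', X), ?_, hu⟩
  simp only [Fam, mem_product, mem_filter, mem_powersetCard]
  exact ⟨⟨⟨hG, hc⟩, hn⟩, subset_univ _, hX2⟩

end Pool.Agent.P.MP_7e54d7_co
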