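import Pool.Agent.P.MP_7e54d7_co.Defs
import Pool.Agent.P.MP_7e54d7_co.Random

/-!
# From the random core to a small saturated set
-/

open Finset

namespace Pool.Agent.P.MP_7e54d7_co

/-- From shear coordinates to the plane. -/
def emb (M : ℕ) (P : ℤ × ℤ) : ℤ × ℤ := (P.1 + M * P.2 + 1, P.2 + 1)

/-- From the plane to shear coordinates. -/
def sh (M : ℕ) (Z : ℤ × ℤ) : ℤ × ℤ := (Z.1 - 1 - M * (Z.2 - 1), Z.2 - 1)

lemma emb_sh (M : ℕ) (Z : ℤ × ℤ) : emb M (sh M Z) = Z := by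
  simp only [emb, sh]; ext <;> simp

lemma sh_emb (M : ℕ) (P : ℤ × ℤ) : sh M (emb M P) = P := by
  simp only [emb, sh]; ext <;> simp

lemma emb_inj (M : ℕ) : Function.Injective (emb M) :=
  Function.LeftInverse.injective (sh_emb M)

lemma sh_inj (M : ℕ) : Function.Injective (sh M) :=
  Function.LeftInverse.injective (emb_sh M)

lemma eucl_emb_eq_iff (M : ℕ) (P Q P' Q' : ℤ × ℤ) :
    eucl (emb M P) (emb M Q) = eucl (emb M P') (emb M Q') ↔ qf M (P - Q) = qf M (P' - Q') := by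
  have e : ∀ P Q : ℤ × ℤ, ((emb M P).1 - (emb M Q).1) ^ 2 + ((emb M P).2 - (emb M Q).2) ^ 2 =
      qf M (P - Q) := by
    intro P Q
    simp only [emb, qf, Prod.fst_sub, Prod.snd_sub]
    ring
  have h0 : ∀ v, (0 : ℝ) ≤ (qf M v : ℤ) := fun v => by
    unfold qf; positivity
  unfold eucl
  rw [e, e, Real.sqrt_inj (h0 _) (h0 _), Int.cast_inj]

/-- The grid as a finite set. -/
noncomputable def gridF (n : ℕ) : Finset (ℤ × ℤ) := Icc (1 : ℤ) n ×ˢ Icc (1 : ℤ) n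

lemma mem_gridF {n : ℕ} {P : ℤ × ℤ} : P ∈ gridF n ↔ InGrid n P := by
  simp [gridF, InGrid, and_assoc]

lemma card_gridF (n : ℕ) : #(gridF n) = n ^ 2 := by
  simp [gridF, sq]

lemma exists_saturated (n : ℕ) (S₀ : Finset (ℤ × ℤ)) (h1 : ∀ P ∈ S₀, InGrid n P)
    (h2 : DistinctDist S₀) : ∃ S, S₀ ⊆ S ∧ Saturated n S := by
  classical
  obtain ⟨S, hS, hmax⟩ := exists_max_image
    {S ∈ (gridF n).powerset | S₀ ⊆ S ∧ DistinctDist S} card
    ⟨S₀, mem_filter.2 ⟨mem_powerset.2 fun P hP => mem_gridF.2 (h1 P hP), Subset.rfl, h2⟩⟩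
  rw [mem_filter, mem_powerset] at hS
  refine ⟨S, hS.2.1, fun P hP => mem_gridF.1 (hS.1 hP), hS.2.2, fun P hP hPS hD => ?_⟩
  have := hmax (insert P S) (mem_filter.2 ⟨mem_powerset.2 (insert_subset (mem_gridF.2 hP) hS.1),
    hS.2.1.trans (subset_insert _ _), hD⟩)
  rw [card_insert_of_notMem hPS] at this
  omega

lemma exists_injOn_res {p R' : ℕ} (hp : 0 < p) (T : Finset (ℤ × ℤ)) (hS : Sidon T)
    (hs : Small (p * R') T) :
    ∃ J ⊆ T, Set.InjOn (res p) J ∧ #T ≤ #J + (2 * R' + 1) ^ 2 := by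
  classical
  have hrep : ∀ r ∈ T.image (res p), ∃ P ∈ T, res p P = r := fun r hr => mem_image.1 hr
  choose! rep hrep1 hrep2 using hrep
  let J := (T.image (res p)).image rep
  have hJ : J ⊆ T := by
    intro P hP
    obtain ⟨r, hr, rfl⟩ := mem_image.1 hP
    exact hrep1 r hr
  refine ⟨J, hJ, ?_, ?_⟩
  · intro P hP Q hQ h
    obtain ⟨r, hr, rfl⟩ := mem_image.1 hP
    obtain ⟨r', hr', rfl⟩ := mem_image.1 hQ
    rw [hrep2 r hr, hrep2 r' hr'] at h
    rw [h]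
  · have h1 : #(T \ J) ≤ #((Icc (-(R' : ℤ)) R' ×ˢ Icc (-(R' : ℤ)) R').image
        fun δ : ℤ × ℤ => ((p : ℤ) * δ.1, (p : ℤ) * δ.2)) := by
      refine card_le_card_of_injOn (fun P => P - rep (res p P)) ?_ ?_
      · intro P hP
        rw [mem_coe, mem_sdiff] at hP
        have hr := mem_image_of_mem (res p) hP.1
        have e := hrep2 _ hr
        obtain ⟨s1, s2⟩ := hs P hP.1 _ (hrep1 _ hr)
        set Q := rep (res p P)
        simp only [res, Prod.mk.injEq] at e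
        obtain ⟨δ1, h1⟩ := (ZMod.intCast_eq_intCast_iff_dvd_sub _ _ _).1 e.1
        obtain ⟨δ2, h2⟩ := (ZMod.intCast_eq_intCast_iff_dvd_sub _ _ _).1 e.2
        have hp0 : (0 : ℤ) < p := by exact_mod_cast hp
        rw [h1, abs_mul, abs_of_pos hp0] at s1
        rw [h2, abs_mul, abs_of_pos hp0] at s2
        push_cast at s1 s2
        have t1 := lt_of_mul_lt_mul_left s1 hp0.le
        have t2 := lt_of_mul_lt_mul_left s2 hp0.le
        simp only [coe_image, coe_product, coe_Icc, Set.mem_image, Set.mem_prod, Set.mem_Icc]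
        exact ⟨(δ1, δ2), ⟨abs_le.1 t1.le, abs_le.1 t2.le⟩, Prod.ext h1.symm h2.symm⟩
      · intro P hP Q hQ h
        rw [mem_coe, mem_sdiff] at hP hQ
        have hr := mem_image_of_mem (res p) hP.1
        have hr' := mem_image_of_mem (res p) hQ.1
        refine (hS P hP.1 _ (hrep1 _ hr) Q hQ.1 _ (hrep1 _ hr') ?_ h).1
        intro h'
        exact hP.2 (h' ▸ mem_image_of_mem rep hr)
    have h2 := h1.trans card_image_le
    rw [card_product, Int.card_Icc, card_sdiff_of_subset hJ] at h2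
    have h3 : ((R' : ℤ) + 1 - -(R' : ℤ)).toNat = 2 * R' + 1 := by omega
    rw [h3, ← sq] at h2
    omega

/-- The tile containing a point. -/
def tile (M N : ℕ) (P : ℤ × ℤ) : ℤ × ℤ := (P.1 / N + M * (P.2 / N), P.2 / N)

lemma abs_sub_lt_of_ediv_eq {a b N : ℤ} (hN : 0 < N) (h : a / N = b / N) : |a - b| < N := by
  have h1 := Int.emod_add_mul_ediv a N
  have h2 := Int.emod_add_mul_ediv b N
  have h3 := Int.emod_nonneg a hN.ne'
  have h4 := Int.emod_nonneg b hN.ne'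
  have h5 := Int.emod_lt_of_pos a hN
  have h6 := Int.emod_lt_of_pos b hN
  rw [h] at h1
  rw [abs_lt]
  constructor <;> linarith

lemma tile_mem {M N n : ℕ} (hN : 0 < N) {Z : ℤ × ℤ} (hZ : InGrid n Z) :
    tile M N (sh M Z) ∈ Icc (-(M : ℤ)) (n / N : ℕ) ×ˢ Icc (0 : ℤ) (n / N : ℕ) := by
  obtain ⟨h1, h2, h3, h4⟩ := hZ
  have hN' : (0 : ℤ) < N := by exact_mod_cast hN
  simp only [tile, sh, mem_product, mem_Icc]
  push_cast
  have e1 := Int.emod_add_mul_ediv (Z.2 - 1) N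
  have e2 := Int.emod_nonneg (Z.2 - 1) hN'.ne'
  have e3 := Int.emod_lt_of_pos (Z.2 - 1) hN'
  have e4 : (Z.1 - 1 - M * (Z.2 - 1)) / N + M * ((Z.2 - 1) / N) =
      (Z.1 - 1 - M * ((Z.2 - 1) % N)) / N := by
    rw [← Int.add_mul_ediv_right _ _ hN'.ne']
    congr 1
    linear_combination M * e1
  have hM : (0 : ℤ) ≤ M := by positivity
  refine ⟨⟨?_, ?_⟩, Int.ediv_nonneg (by omega) hN'.le, Int.ediv_le_ediv hN' (by omega)⟩
  · rw [e4]
    apply Int.le_ediv_of_mul_le hN'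
    nlinarith
  · rw [e4]
    apply Int.ediv_le_ediv hN'
    nlinarith

theorem core {n p R' M i j : ℕ} [hp : Fact p.Prime] (hp2 : p ≠ 2) (hR' : 0 < R')
    (hn : p * (2 * R') * (M + 1) ≤ n) (hij : i ≤ j) (hj : 0 < j) (hi : i ≤ p)
    (hColl : 2 * #(Coll M (p * (2 * R'))) ≤ i * (4 * R' ^ 2) ^ 2)
    (hUnion : ((n : ℝ) ^ 2) ^ i * (p : ℝ) ^ i *
      Real.exp (-(((i : ℝ) ^ 2 - i - (5 * p * (i : ℝ) ^ 2 / j + 25 / (4 * (R' : ℝ) ^ 2) *
        (2 * (i : ℝ) ^ 4 / p + 4 * (i : ℝ) ^ 3 * p / j + 4 * (i : ℝ) ^ 2)) -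
        i * (4 * (R' : ℝ) ^ 2)) / (16 * (4 * (R' : ℝ) ^ 2)))) < 1 / 2) :
    satNum n ≤ p + (n / (p * R') + M + 1) * (n / (p * R') + 1) * (j + (2 * R' + 1) ^ 2) := by
  classical
  have hp0 := hp.out.pos
  let G := (gridF n).image (sh M)
  have hG : (#G : ℝ) = (n : ℝ) ^ 2 := by
    rw [card_image_of_injective _ (sh_inj M), card_gridF]; push_cast; rfl
  obtain ⟨ξ, X, hX, hblock⟩ := exists_core (i := i) hp2 hR' M G hi hColl (hG ▸ hUnion)
  let S₀ := (univ \ X).image fun x : ZMod p => emb M (pt x (ξ x))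
  have hS₀g : ∀ P ∈ S₀, InGrid n P := by
    intro P hP
    obtain ⟨x, -, rfl⟩ := mem_image.1 hP
    obtain ⟨h1, h2, h3, h4⟩ := pt_bounds x (ξ x)
    have h5 : ((p * (2 * R') : ℕ) : ℤ) * (M + 1) ≤ n := by exact_mod_cast hn
    have hM : (0 : ℤ) ≤ M := by positivity
    simp only [InGrid, emb]
    refine ⟨by nlinarith, by nlinarith, by omega, by nlinarith⟩
  have hS₀d : DistinctDist S₀ := by
    intro A hA B hB C hC D hD hAB hCD h
    obtain ⟨x, hx, rfl⟩ := mem_image.1 hA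
    obtain ⟨y, -, rfl⟩ := mem_image.1 hB
    obtain ⟨z, -, rfl⟩ := mem_image.1 hC
    obtain ⟨w, -, rfl⟩ := mem_image.1 hD
    rw [eucl_emb_eq_iff] at h
    by_cases h1 : (z, w) = (x, y)
    · simp only [Prod.mk.injEq] at h1
      rw [h1.1, h1.2]; exact Or.inl ⟨rfl, rfl⟩
    by_cases h2 : (z, w) = (y, x)
    · simp only [Prod.mk.injEq] at h2
      rw [h2.1, h2.2]; exact Or.inr ⟨rfl, rfl⟩
    exfalso
    refine (mem_sdiff.1 hx).2 (hX ((x, y), (z, w)) ?_)
    simp only [collq, mem_filter, mem_univ, true_and]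
    exact ⟨fun h => hAB (by rw [h]), fun h => hCD (by rw [h]), h1, h2, h⟩
  obtain ⟨S, hS₀S, hS⟩ := exists_saturated n S₀ hS₀g hS₀d
  have hle : satNum n ≤ #S := Nat.sInf_le ⟨S, hS, rfl⟩
  refine hle.trans ?_
  have hS₀c : #S₀ ≤ p := by
    refine card_image_le.trans ((card_le_univ _).trans (le_of_eq (ZMod.card p)))
  let T := (S \ S₀).image (sh M)
  have hT : ∀ P ∈ T, emb M P ∈ S ∧ emb M P ∉ S₀ := by
    intro P hP
    obtain ⟨Z, hZ, rfl⟩ := mem_image.1 hP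
    rw [emb_sh]
    exact mem_sdiff.1 hZ
  have hTc : #S ≤ p + #T := by
    rw [card_image_of_injective _ (sh_inj M), card_sdiff_of_subset hS₀S]
    omega
  refine hTc.trans (Nat.add_le_add_left ?_ _)
  have hN : 0 < p * R' := Nat.mul_pos hp0 hR'
  have hsid : ∀ U ⊆ T, Sidon U := by
    intro U hU P hP P' hP' Q hQ Q' hQ' hne h
    have hne' : Q ≠ Q' := by
      intro h'
      rw [h', sub_self, sub_eq_zero] at h
      exact hne h
    rcases hS.2.1 _ (hT P (hU hP)).1 _ (hT P' (hU hP')).1 _ (hT Q (hU hQ)).1 _ (hT Q' (hU hQ')).1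
      ((emb_inj M).ne hne) ((emb_inj M).ne hne') ((eucl_emb_eq_iff M _ _ _ _).2 (by rw [h]))
      with h1 | h1
    · exact ⟨emb_inj M h1.1, emb_inj M h1.2⟩
    · exfalso
      rw [← emb_inj M h1.1, ← emb_inj M h1.2] at h
      apply hne
      have h2 := congrArg Prod.fst h
      have h3 := congrArg Prod.snd h
      simp only [Prod.fst_sub, Prod.snd_sub] at h2 h3
      exact Prod.ext (by omega) (by omega)
  have hfib : ∀ c, #{P ∈ T | tile M (p * R') P = c} ≤ j + (2 * R' + 1) ^ 2 := by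
    intro c
    by_contra hcon
    set U := {P ∈ T | tile M (p * R') P = c} with hU
    have hUT : U ⊆ T := filter_subset _ _
    have hsm : ∀ V ⊆ U, Small (p * R') V := by
      intro V hV P hP Q hQ
      have h1 := (mem_filter.1 (hV hP)).2.trans (mem_filter.1 (hV hQ)).2.symm
      simp only [tile, Prod.mk.injEq] at h1
      have hN' : (0 : ℤ) < (p * R' : ℕ) := by exact_mod_cast hN
      refine ⟨abs_sub_lt_of_ediv_eq hN' ?_, abs_sub_lt_of_ediv_eq hN' h1.2⟩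
      have h2 := h1.1
      rw [h1.2] at h2
      exact add_right_cancel h2
    obtain ⟨J₀, hJ₀, hinj, hc⟩ := exists_injOn_res hp0 U (hsid U hUT) (hsm U Subset.rfl)
    obtain ⟨J, hJ, hJc⟩ := exists_subset_card_eq (s := J₀) (n := j) (by omega)
    obtain ⟨J', hJ', hJ'c, E, hE, hne, S', h1, h2, h3⟩ := select (two_ne_zero_zmod hp2) J (res p)
      (hinj.mono hJ) (i := i) (by omega) (by omega) (lam := 25 / (4 * (R' : ℝ) ^ 2))
      (by positivity)
    rw [ZMod.card, hJc] at h3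
    have hJ'U : J' ⊆ U := hJ'.trans (hJ.trans hJ₀)
    refine hblock J' ?_ hJ'c ⟨hsid _ (hJ'U.trans hUT), hsm _ hJ'U, E, hE, hne, S', h1, h2, h3⟩ ?_
    · intro P hP
      refine mem_image.2 ⟨emb M P, mem_gridF.2 (hS.1 _ (hT P (hUT (hJ'U hP))).1), sh_emb M P⟩
    · intro P hP P' hP' x hx y hy hxy h
      have hx' : emb M (pt x (ξ x)) ∈ S₀ := mem_image.2 ⟨x, mem_sdiff.2 ⟨mem_univ _, hx⟩, rfl⟩
      have hy' : emb M (pt y (ξ y)) ∈ S₀ := mem_image.2 ⟨y, mem_sdiff.2 ⟨mem_univ _, hy⟩, rfl⟩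
      have hne1 : pt x (ξ x) ≠ pt y (ξ y) := by
        intro h'
        have := congrArg (res p) h'
        rw [res_pt, res_pt] at this
        exact hxy (Prod.ext_iff.1 this).1
      have hne2 : P ≠ P' := by
        intro h'
        rw [h', sub_self, sub_eq_zero] at h
        exact hne1 h
      have hP1 := hT P (hUT (hJ'U hP))
      have hP2 := hT P' (hUT (hJ'U hP'))
      rcases hS.2.1 _ (hS₀S hx') _ (hS₀S hy') _ hP1.1 _ hP2.1 ((emb_inj M).ne hne1)
        ((emb_inj M).ne hne2) ((eucl_emb_eq_iff M _ _ _ _).2 (by rw [h])) with h4 | h4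
      · exact hP1.2 (h4.1 ▸ hx')
      · exact hP2.2 (h4.1 ▸ hx')
  have hmaps : ∀ P ∈ T, tile M (p * R') P ∈
      Icc (-(M : ℤ)) (n / (p * R') : ℕ) ×ˢ Icc (0 : ℤ) (n / (p * R') : ℕ) := by
    intro P hP
    obtain ⟨Z, hZ, rfl⟩ := mem_image.1 hP
    exact tile_mem hN (hS.1 Z (mem_sdiff.1 hZ).1)
  refine (card_le_mul_card_image_of_maps_to hmaps _ fun c _ => hfib c).trans (le_of_eq ?_)
  rw [card_product, Int.card_Icc, Int.card_Icc, mul_comm]
  generalize n / (p * R') = q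
  congr 2
  omega

end Pool.Agent.P.MP_7e54d7_co
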