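import Mathlib

/-!
# Definitions: saturated distinct-distance sets in the grid
-/

namespace Pool.Agent.P.MP_7e54d7_co

/-- The grid `G_n = {1, ..., n}^2`. -/
def InGrid (n : ℕ) (P : ℤ × ℤ) : Prop := 1 ≤ P.1 ∧ P.1 ≤ n ∧ 1 ≤ P.2 ∧ P.2 ≤ n

/-- The Euclidean distance between two lattice points. -/
noncomputable def eucl (P Q : ℤ × ℤ) : ℝ := √(((P.1 - Q.1) ^ 2 + (P.2 - Q.2) ^ 2 : ℤ) : ℝ)

/-- The distances between pairs of distinct points of `S` are pairwise different. -/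
def DistinctDist (S : Finset (ℤ × ℤ)) : Prop :=
  ∀ A ∈ S, ∀ B ∈ S, ∀ C ∈ S, ∀ D ∈ S, A ≠ B → C ≠ D → eucl A B = eucl C D →
    (A = C ∧ B = D) ∨ (A = D ∧ B = C)

/-- `S` is a distinct-distance subset of `G_n` that is maximal under inclusion. -/
def Saturated (n : ℕ) (S : Finset (ℤ × ℤ)) : Prop :=
  (∀ P ∈ S, InGrid n P) ∧ DistinctDist S ∧
    ∀ P, InGrid n P → P ∉ S → ¬ DistinctDist (insert P S)

/-- `s(n)`: the least size of a saturated distinct-distance subset of `G_n`. -/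
noncomputable def satNum (n : ℕ) : ℕ := sInf {k | ∃ S, Saturated n S ∧ S.card = k}

end Pool.Agent.P.MP_7e54d7_co
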