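import Pool.Agent.P.MP_7e54d7_co.Core

/-!
# Choice of the parameters
-/

open Finset Filter

namespace Pool.Agent.P.MP_7e54d7_co

lemma union_ineq {n p w l i j : ℝ} {k : ℕ} (hk : (k : ℝ) = i) (hl : 1 ≤ l) (hw : 2000 ≤ w)
    (hn : 0 < n) (hlog : Real.log n ≤ l) (hp : 2 ^ 24 * w * l ^ 2 ≤ p) (hpn : p ≤ n)
    (hi : i = 128 * w * l) (hj : j = 2 ^ 18 * l * p) :
    (n ^ 2) ^ k * p ^ k * Real.exp (-((i ^ 2 - i - (5 * p * i ^ 2 / j + 25 / w *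
      (2 * i ^ 4 / p + 4 * i ^ 3 * p / j + 4 * i ^ 2)) - i * w) / (16 * w))) < 1 / 2 := by
  have hw0 : 0 < w := by linarith
  have hl0 : 0 < l := by linarith
  have hp0 : 0 < p := lt_of_lt_of_le (by positivity) hp
  have hi10 : 10 ≤ i := by rw [hi]; nlinarith
  have hi0 : 0 < i := by linarith
  have t1 : i ≤ i ^ 2 / 10 := by nlinarith
  have t2 : 5 * p * i ^ 2 / j ≤ i ^ 2 / 20 := by
    rw [hj, div_le_div_iff₀ (by positivity) (by norm_num)]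
    have : 0 < p * i ^ 2 := by positivity
    nlinarith
  have t3 : 25 / w * (2 * i ^ 4 / p) ≤ i ^ 2 / 20 := by
    have e : 25 / w * (2 * i ^ 4 / p) = i ^ 2 * (50 * 2 ^ 14 * (w * l ^ 2) / p) := by
      rw [hi]; field_simp; ring
    rw [e, div_eq_mul_one_div (i ^ 2) 20]
    refine mul_le_mul_of_nonneg_left ?_ (by positivity)
    rw [div_le_div_iff₀ hp0 (by norm_num)]
    have : 0 < w * l ^ 2 := by positivity
    nlinarith
  have t4 : 25 / w * (4 * i ^ 3 * p / j) ≤ i ^ 2 / 20 := by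
    have e : 25 / w * (4 * i ^ 3 * p / j) = i ^ 2 * (100 * 128 / 2 ^ 18) := by
      rw [hj, hi]; field_simp; ring
    rw [e]
    nlinarith [sq_nonneg i]
  have t5 : 25 / w * (4 * i ^ 2) ≤ i ^ 2 / 20 := by
    have e : 25 / w * (4 * i ^ 2) = i ^ 2 * (100 / w) := by ring
    rw [e, div_eq_mul_one_div (i ^ 2) 20]
    refine mul_le_mul_of_nonneg_left ?_ (by positivity)
    rw [div_le_div_iff₀ hw0 (by norm_num)]
    linarith
  have t6 : i * w ≤ i ^ 2 / 10 := by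
    have : 10 * w ≤ i := by rw [hi]; nlinarith
    nlinarith
  have hnum : 4 * (i * l) ≤ (i ^ 2 - i - (5 * p * i ^ 2 / j + 25 / w *
      (2 * i ^ 4 / p + 4 * i ^ 3 * p / j + 4 * i ^ 2)) - i * w) / (16 * w) := by
    rw [le_div_iff₀ (by positivity), mul_add, mul_add]
    have : 4 * (i * l) * (16 * w) = i ^ 2 / 2 := by rw [hi]; ring
    rw [this]
    nlinarith [sq_nonneg i]
  have hn1 : n ≤ Real.exp l := by
    rw [← Real.exp_log hn]; exact Real.exp_le_exp.2 hlog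
  have hpow : (n ^ 2) ^ k * p ^ k ≤ Real.exp (3 * (i * l)) := by
    calc (n ^ 2) ^ k * p ^ k ≤ ((Real.exp l) ^ 2) ^ k * (Real.exp l) ^ k := by
          gcongr
          exact hpn.trans hn1
      _ = Real.exp (3 * (i * l)) := by
          rw [← pow_mul, ← pow_add, ← Real.exp_nat_mul, ← hk]
          congr 1
          push_cast
          ring
  calc _ ≤ Real.exp (3 * (i * l)) * Real.exp (-(4 * (i * l))) := by
        gcongr
    _ = Real.exp (-(i * l)) := by rw [← Real.exp_add]; congr 1; ring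
    _ ≤ Real.exp (-1) := Real.exp_le_exp.2 (by nlinarith)
    _ < 1 / 2 := by
        have := Real.exp_neg_one_lt_d9
        linarith

theorem nat_bound {n l R' : ℕ} (hl : 1 ≤ l) (hlog : Real.log n ≤ l) (hR : 23 ≤ R')
    (h1 : 2 ^ 84 * l ^ 7 * R' ^ 3 ≤ n) (h2 : n < 2 ^ 84 * l ^ 7 * (R' + 1) ^ 3) :
    satNum n ≤ 2 ^ 171 * l ^ 13 * R' ^ 2 := by
  obtain ⟨p, hp, hp1, hp2⟩ := Nat.exists_prime_lt_and_le_two_mul
    (2 ^ 24 * (4 * R' ^ 2) * l ^ 2) (by positivity)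
  have : Fact p.Prime := ⟨hp⟩
  have hl2 : l ≤ l ^ 2 := by nlinarith
  have hl5 : 1 ≤ l ^ 5 := Nat.one_le_pow _ _ hl
  have hR2 : 529 ≤ R' ^ 2 := by nlinarith
  have hA : R' ^ 2 * l ≤ R' ^ 2 * l ^ 2 := Nat.mul_le_mul_left _ hl2
  have hA' : R' ^ 2 ≤ R' ^ 2 * l := Nat.le_mul_of_pos_right _ hl
  have hip : 128 * (4 * R' ^ 2) * l ≤ p := by nlinarith
  have hn : p * (2 * R') * (2 ^ 55 * l ^ 5 + 1) ≤ n := by
    calc p * (2 * R') * (2 ^ 55 * l ^ 5 + 1)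
        ≤ (2 * (2 ^ 24 * (4 * R' ^ 2) * l ^ 2)) * (2 * R') * (2 ^ 56 * l ^ 5) := by
          gcongr
          omega
      _ = 2 ^ 84 * l ^ 7 * R' ^ 3 := by ring
      _ ≤ n := h1
  have hN1 : 1 ≤ p * (2 * R') := Nat.mul_pos hp.pos (by omega)
  have h2N : 2 * (p * (2 * R')) ≤ n := by
    refine le_trans ?_ hn
    rw [mul_comm]
    exact Nat.mul_le_mul_left _ (by omega)
  have hpn : p ≤ n := by
    refine le_trans ?_ h2N
    nlinarith
  have hn0 : 0 < n := by omega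
  have hColl : 2 * #(Coll (2 ^ 55 * l ^ 5) (p * (2 * R'))) ≤
      128 * (4 * R' ^ 2) * l * (4 * R' ^ 2) ^ 2 := by
    have h3 := card_Coll_le (2 ^ 55 * l ^ 5) (p * (2 * R')) (by omega) hN1
    have hl' : (1 : ℝ) ≤ l := by exact_mod_cast hl
    have h4 : Real.log (2 * ((p * (2 * R') : ℕ) : ℝ)) ≤ l := by
      refine le_trans (Real.log_le_log (by positivity) ?_) hlog
      exact_mod_cast h2N
    have h5 : 0 ≤ Real.log (2 * ((p * (2 * R') : ℕ) : ℝ)) := by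
      apply Real.log_nonneg
      have : (1 : ℝ) ≤ ((p * (2 * R') : ℕ) : ℝ) := by exact_mod_cast hN1
      linarith
    have h6 : (p : ℝ) ≤ 2 * (2 ^ 24 * (4 * (R' : ℝ) ^ 2) * (l : ℝ) ^ 2) := by exact_mod_cast hp2
    have hl5' : (1 : ℝ) ≤ (l : ℝ) ^ 5 := one_le_pow₀ hl'
    have h7 : (#(Coll (2 ^ 55 * l ^ 5) (p * (2 * R'))) : ℝ) * (2 ^ 54 * (l : ℝ) ^ 5) ≤
        (64 * (4 * (R' : ℝ) ^ 2) * l * (4 * (R' : ℝ) ^ 2) ^ 2) * (2 ^ 54 * (l : ℝ) ^ 5) := by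
      calc (#(Coll (2 ^ 55 * l ^ 5) (p * (2 * R'))) : ℝ) * (2 ^ 54 * (l : ℝ) ^ 5)
          ≤ (#(Coll (2 ^ 55 * l ^ 5) (p * (2 * R'))) : ℝ) * (((2 ^ 55 * l ^ 5 : ℕ) : ℝ) - 1) := by
            gcongr
            push_cast
            linarith
        _ ≤ _ := h3
        _ ≤ 144 * (2 * (2 ^ 24 * (4 * (R' : ℝ) ^ 2) * (l : ℝ) ^ 2) * (2 * R')) ^ 2 *
            (2 * (l : ℝ)) ^ 2 := by
            gcongr
            · push_cast; gcongr
            · linarith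
        _ = (36 * (4 * (R' : ℝ) ^ 2) * l * (4 * (R' : ℝ) ^ 2) ^ 2) * (2 ^ 54 * (l : ℝ) ^ 5) := by
            ring
        _ ≤ _ := by gcongr; norm_num
    have h8 := le_of_mul_le_mul_right h7 (by positivity)
    generalize #(Coll (2 ^ 55 * l ^ 5) (p * (2 * R'))) = K at h8 ⊢
    have h9 : ((2 * K : ℕ) : ℝ) ≤
        ((128 * (4 * R' ^ 2) * l * (4 * R' ^ 2) ^ 2 : ℕ) : ℝ) := by
      push_cast
      linarith
    exact_mod_cast h9
  have hcore := core (n := n) (p := p) (R' := R') (M := 2 ^ 55 * l ^ 5)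
    (i := 128 * (4 * R' ^ 2) * l) (j := 2 ^ 18 * l * p) (by nlinarith) (by omega) hn
    (by nlinarith) (by have := hp.pos; positivity) hip hColl
    (union_ineq (l := l) rfl (by exact_mod_cast hl)
      (by have : (529 : ℝ) ≤ (R' : ℝ) ^ 2 := by exact_mod_cast hR2
          linarith)
      (by exact_mod_cast hn0) hlog (by exact_mod_cast hp1.le) (by exact_mod_cast hpn)
      (by push_cast; ring) (by push_cast; ring))
  have hq : n / (p * R') ≤ 2 ^ 61 * l ^ 5 := by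
    refine Nat.div_le_of_le_mul ?_
    calc n ≤ 2 ^ 84 * l ^ 7 * (R' + 1) ^ 3 := h2.le
      _ ≤ 2 ^ 84 * l ^ 7 * (2 * R') ^ 3 := by gcongr; omega
      _ = (2 ^ 24 * (4 * R' ^ 2) * l ^ 2) * R' * (2 ^ 61 * l ^ 5) := by ring
      _ ≤ p * R' * (2 ^ 61 * l ^ 5) := by gcongr
  refine hcore.trans ?_
  have h3 : (2 * R' + 1) ^ 2 ≤ p := by nlinarith
  have h4 : p ≤ l * p := Nat.le_mul_of_pos_left _ hl
  have h5 : 1 ≤ l ^ 11 := Nat.one_le_pow _ _ hl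
  calc p + (n / (p * R') + 2 ^ 55 * l ^ 5 + 1) * (n / (p * R') + 1) *
        (2 ^ 18 * l * p + (2 * R' + 1) ^ 2)
      ≤ p + (2 ^ 62 * l ^ 5) * (2 ^ 62 * l ^ 5) * (2 ^ 19 * l * p) := by
        gcongr
        · omega
        · omega
        · nlinarith
    _ = p + 2 ^ 143 * (l ^ 11 * p) := by ring
    _ ≤ 2 ^ 144 * (l ^ 11 * p) := by
        have : p ≤ l ^ 11 * p := Nat.le_mul_of_pos_left _ h5
        omega
    _ ≤ 2 ^ 144 * (l ^ 11 * (2 * (2 ^ 24 * (4 * R' ^ 2) * l ^ 2))) := by gcongr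
    _ = _ := by ring

theorem cube_bound {n l : ℕ} (hl : 1 ≤ l) (hlog : Real.log n ≤ l)
    (h : 2 ^ 84 * l ^ 7 * 23 ^ 3 ≤ n) : satNum n ^ 3 ≤ (2 ^ 171) ^ 3 * l ^ 25 * n ^ 2 := by
  have hex : ∃ R, n < 2 ^ 84 * l ^ 7 * (R + 1) ^ 3 := by
    refine ⟨n, ?_⟩
    have h1 : 1 ≤ 2 ^ 84 * l ^ 7 := Nat.one_le_iff_ne_zero.2 (by positivity)
    calc n < (n + 1) ^ 3 := by nlinarith [Nat.zero_le (n ^ 2), Nat.zero_le (n ^ 3)]
      _ ≤ _ := Nat.le_mul_of_pos_left _ h1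
  classical
  have h2 := Nat.find_spec hex
  have hR : 23 ≤ Nat.find hex := by
    by_contra hcon
    have : 2 ^ 84 * l ^ 7 * (Nat.find hex + 1) ^ 3 ≤ 2 ^ 84 * l ^ 7 * 23 ^ 3 := by
      gcongr
      omega
    omega
  have h1 := Nat.find_min hex (m := Nat.find hex - 1) (by omega)
  rw [show Nat.find hex - 1 + 1 = Nat.find hex by omega, not_lt] at h1
  have h3 := nat_bound hl hlog hR h1 h2
  set R := Nat.find hex
  have h4 : l ^ 7 * R ^ 3 ≤ n := by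
    refine le_trans ?_ h1
    rw [mul_assoc]
    exact Nat.le_mul_of_pos_left _ (by positivity)
  calc satNum n ^ 3 ≤ (2 ^ 171 * l ^ 13 * R ^ 2) ^ 3 := by gcongr
    _ = (2 ^ 171) ^ 3 * l ^ 25 * (l ^ 7 * R ^ 3) ^ 2 := by ring
    _ ≤ _ := by gcongr

theorem satNum_le : ∃ C : ℝ, ∃ n₀ : ℕ, ∀ n ≥ n₀,
    (satNum n : ℝ) ≤ C * (n : ℝ) ^ (2 / 3 : ℝ) * Real.log n ^ (25 / 3 : ℝ) := by
  have h1 := (Real.isLittleO_pow_log_id_atTop (n := 7)).def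
    (show (0 : ℝ) < 1 / (2 ^ 84 * 2 ^ 7 * 23 ^ 3) by positivity)
  have h2 := (tendsto_natCast_atTop_atTop (R := ℝ)).eventually
    (h1.and (Real.tendsto_log_atTop.eventually_ge_atTop 1))
  obtain ⟨n₀, hn₀⟩ := eventually_atTop.1 h2
  refine ⟨2 ^ 171 * 2 ^ (25 / 3 : ℝ), n₀, fun n hn => ?_⟩
  obtain ⟨h3, h4⟩ := hn₀ n hn
  set l := ⌈Real.log n⌉₊ with hl
  have hl1 : Real.log n ≤ l := Nat.le_ceil _
  have hl2 : (l : ℝ) ≤ 2 * Real.log n := by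
    have := Nat.ceil_lt_add_one (show 0 ≤ Real.log n by linarith)
    linarith
  have hl3 : 1 ≤ l := by
    have : (1 : ℝ) ≤ l := h4.trans hl1
    exact_mod_cast this
  have h5 : 2 ^ 84 * l ^ 7 * 23 ^ 3 ≤ n := by
    rw [Real.norm_of_nonneg (by positivity), id, Real.norm_of_nonneg (by positivity),
      div_mul_eq_mul_div, one_mul, le_div_iff₀ (by positivity)] at h3
    have : (2 : ℝ) ^ 84 * (l : ℝ) ^ 7 * 23 ^ 3 ≤ n := by
      calc (2 : ℝ) ^ 84 * (l : ℝ) ^ 7 * 23 ^ 3 ≤ 2 ^ 84 * (2 * Real.log n) ^ 7 * 23 ^ 3 := by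
            gcongr
        _ = Real.log n ^ 7 * (2 ^ 84 * 2 ^ 7 * 23 ^ 3) := by ring
        _ ≤ n := h3
    exact_mod_cast this
  have h6 : (satNum n : ℝ) ^ 3 ≤ (2 ^ 171) ^ 3 * (l : ℝ) ^ 25 * (n : ℝ) ^ 2 := by
    exact_mod_cast cube_bound hl3 hl1 h5
  have hlog0 : 0 ≤ Real.log n := by linarith
  refine le_of_pow_le_pow_left₀ (n := 3) (by norm_num) (by positivity) (h6.trans ?_)
  have e1 : ((n : ℝ) ^ (2 / 3 : ℝ)) ^ 3 = (n : ℝ) ^ 2 := by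
    rw [← Real.rpow_natCast, ← Real.rpow_mul (by positivity)]; norm_num
  have e2 : ∀ x : ℝ, 0 ≤ x → (x ^ (25 / 3 : ℝ)) ^ 3 = x ^ 25 := by
    intro x hx
    rw [← Real.rpow_natCast, ← Real.rpow_mul hx]; norm_num
  rw [mul_pow, mul_pow, mul_pow, e1, e2 _ hlog0, e2 _ (by norm_num)]
  calc ((2 : ℝ) ^ 171) ^ 3 * (l : ℝ) ^ 25 * (n : ℝ) ^ 2
      ≤ (2 ^ 171) ^ 3 * (2 * Real.log n) ^ 25 * (n : ℝ) ^ 2 := by gcongr
    _ = _ := by ring

end Pool.Agent.P.MP_7e54d7_co
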