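import Mathlib

/-!
# Finite probability tools: McDiarmid's exponential moment bound and a blocking lemma
-/

open Finset Function
open scoped BigOperators

namespace Pool.Agent.P.MP_7e54d7_co

section Hoeffding

variable {Ω : Type*} [Fintype Ω] [Nonempty Ω]

lemma hoeffding (g : Ω → ℝ) (c : ℝ) (h : ∀ a b, |g a - g b| ≤ c) :
    𝔼 a, Real.exp (-(g a)) ≤ Real.exp (-(𝔼 a, g a) + c ^ 2 / 2) := by
  set m : ℝ := 𝔼 a, g a with hm
  have hc : 0 ≤ c := (abs_nonneg _).trans (h (Classical.arbitrary Ω) (Classical.arbitrary Ω))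
  have hu : ∀ a, |m - g a| ≤ c := by
    intro a
    have e : m - g a = 𝔼 b, (g b - g a) := by
      rw [expect_sub_distrib, Fintype.expect_const]
    rw [e, abs_le]
    constructor
    · rw [← Fintype.expect_const (ι := Ω) (-c)]
      exact expect_le_expect fun b _ => (abs_le.1 (h b a)).1
    · rw [← Fintype.expect_const (ι := Ω) c]
      exact expect_le_expect fun b _ => (abs_le.1 (h b a)).2
  rcases hc.eq_or_lt with hc0 | hc0
  · have : ∀ a, g a = m := fun a => by
      have := hu a
      rw [← hc0] at this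
      have := abs_nonpos_iff.1 this
      linarith
    simp only [this, Fintype.expect_const]
    exact Real.exp_le_exp.2 (by nlinarith)
  have key : ∀ a, Real.exp (-(g a)) ≤
      Real.exp (-m) * (Real.cosh c + (m - g a) * (Real.sinh c / c)) := by
    intro a
    have h1 := (abs_le.1 (hu a)).1
    have h2 := (abs_le.1 (hu a)).2
    set u := m - g a with hudef
    have hconv := convexOn_exp.2 (Set.mem_univ c) (Set.mem_univ (-c))
      (show 0 ≤ (c + u) / (2 * c) by apply div_nonneg <;> linarith)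
      (show 0 ≤ (c - u) / (2 * c) by apply div_nonneg <;> linarith)
      (by field_simp; ring)
    simp only [smul_eq_mul] at hconv
    have e1 : (c + u) / (2 * c) * c + (c - u) / (2 * c) * -c = u := by field_simp; ring
    rw [e1] at hconv
    have e2 : (c + u) / (2 * c) * Real.exp c + (c - u) / (2 * c) * Real.exp (-c) =
        Real.cosh c + u * (Real.sinh c / c) := by
      rw [Real.cosh_eq, Real.sinh_eq]; field_simp; ring
    rw [e2] at hconv
    have e3 : Real.exp (-(g a)) = Real.exp (-m) * Real.exp u := by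
      rw [← Real.exp_add]; congr 1; rw [hudef]; ring
    rw [e3]
    exact mul_le_mul_of_nonneg_left hconv (Real.exp_pos _).le
  calc 𝔼 a, Real.exp (-(g a))
      ≤ 𝔼 a, Real.exp (-m) * (Real.cosh c + (m - g a) * (Real.sinh c / c)) :=
        expect_le_expect fun a _ => key a
    _ = Real.exp (-m) * Real.cosh c := by
        rw [← mul_expect, expect_add_distrib, Fintype.expect_const, ← expect_mul,
          expect_sub_distrib, Fintype.expect_const, ← hm]
        simp
    _ ≤ Real.exp (-m) * Real.exp (c ^ 2 / 2) :=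
        mul_le_mul_of_nonneg_left (Real.cosh_le_exp_half_sq c) (Real.exp_pos _).le
    _ = Real.exp (-m + c ^ 2 / 2) := by rw [← Real.exp_add]

end Hoeffding

section Product

variable {ι Ω : Type*} [Fintype ι] [DecidableEq ι] [Fintype Ω] [Nonempty Ω]

lemma expect_resample (x : ι) (G : (ι → Ω) → ℝ) :
    𝔼 ω, G ω = 𝔼 ω : ι → Ω, 𝔼 a : Ω, G (update ω x a) := by
  let σ : (ι → Ω) × Ω → (ι → Ω) × Ω := fun q => (update q.1 x q.2, q.1 x)
  have hσ : Involutive σ := by
    rintro ⟨ω, a⟩
    simp [σ]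
  have h1 : 𝔼 q : (ι → Ω) × Ω, G (σ q).1 = 𝔼 q : (ι → Ω) × Ω, G q.1 :=
    Fintype.expect_bijective σ hσ.bijective _ _ fun _ => rfl
  have h2 : 𝔼 q : (ι → Ω) × Ω, G q.1 = 𝔼 ω, G ω := by
    rw [← univ_product_univ, expect_product]
    simp only [Fintype.expect_const]
  rw [← h2, ← h1, ← univ_product_univ, expect_product]

lemma expect_coord (x : ι) (G : Ω → ℝ) : 𝔼 ω : ι → Ω, G (ω x) = 𝔼 a, G a := by
  rw [expect_resample x]
  simp only [update_self, Fintype.expect_const]

lemma expect_piecewise (C : Finset ι) (G : (ι → Ω) → ℝ) :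
    𝔼 ξ, G ξ = 𝔼 ω : ι → Ω, 𝔼 ω' : ι → Ω, G (C.piecewise ω ω') := by
  let σ : (ι → Ω) × (ι → Ω) → (ι → Ω) × (ι → Ω) :=
    fun q => (C.piecewise q.1 q.2, C.piecewise q.2 q.1)
  have hσ : Involutive σ := by
    rintro ⟨ω, ω'⟩
    simp only [σ, Prod.mk.injEq]
    constructor <;> (ext z; by_cases hz : z ∈ C <;> simp [hz])
  have h1 : 𝔼 q : (ι → Ω) × (ι → Ω), G (σ q).1 = 𝔼 q : (ι → Ω) × (ι → Ω), G q.1 :=
    Fintype.expect_bijective σ hσ.bijective _ _ fun _ => rfl
  have h2 : 𝔼 q : (ι → Ω) × (ι → Ω), G q.1 = 𝔼 ω, G ω := by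
    rw [← univ_product_univ, expect_product]
    simp only [Fintype.expect_const]
  rw [← h2, ← h1, ← univ_product_univ, expect_product]

lemma mcdiarmid_aux (f : (ι → Ω) → ℝ) (c : ι → ℝ)
    (h : ∀ x ω a b, |f (update ω x a) - f (update ω x b)| ≤ c x) (s : Finset ι) :
    ∀ ω₀ : ι → Ω, 𝔼 ω : ι → Ω, Real.exp (-(f (s.piecewise ω ω₀))) ≤
      Real.exp (-(𝔼 ω : ι → Ω, f (s.piecewise ω ω₀)) + ∑ x ∈ s, c x ^ 2 / 2) := by
  induction s using Finset.induction_on with
  | empty => intro ω₀; simp
  | insert x s hx ih =>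
    intro ω₀
    have e : ∀ (ω : ι → Ω) (a : Ω), (insert x s).piecewise (update ω x a) ω₀ =
        s.piecewise ω (update ω₀ x a) := by
      intro ω a
      ext z
      by_cases hz : z = x
      · subst hz; simp [hx]
      · by_cases hz' : z ∈ s <;> simp [hz, hz']
    have e' : ∀ (ω : ι → Ω) (a : Ω), s.piecewise ω (update ω₀ x a) =
        update (s.piecewise ω ω₀) x a := by
      intro ω a
      ext z
      by_cases hz : z = x
      · subst hz; simp [hx]
      · by_cases hz' : z ∈ s <;> simp [hz, hz']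
    have step : ∀ G : (ι → Ω) → ℝ, 𝔼 ω : ι → Ω, G ((insert x s).piecewise ω ω₀) =
        𝔼 a : Ω, 𝔼 ω : ι → Ω, G (s.piecewise ω (update ω₀ x a)) := by
      intro G
      rw [expect_resample x (fun ω => G ((insert x s).piecewise ω ω₀)), expect_comm]
      simp only [e]
    rw [step (fun ξ => Real.exp (-(f ξ))), step f]
    set g : Ω → ℝ := fun a => 𝔼 ω : ι → Ω, f (s.piecewise ω (update ω₀ x a)) with hg
    have hosc : ∀ a b, |g a - g b| ≤ c x := by
      intro a b
      simp only [hg]
      rw [← expect_sub_distrib, abs_le]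
      constructor
      · rw [← Fintype.expect_const (ι := ι → Ω) (-c x)]
        refine expect_le_expect fun ω _ => ?_
        rw [e', e']
        exact (abs_le.1 (h x _ a b)).1
      · rw [← Fintype.expect_const (ι := ι → Ω) (c x)]
        refine expect_le_expect fun ω _ => ?_
        rw [e', e']
        exact (abs_le.1 (h x _ a b)).2
    calc 𝔼 a : Ω, 𝔼 ω : ι → Ω, Real.exp (-(f (s.piecewise ω (update ω₀ x a))))
        ≤ 𝔼 a : Ω, Real.exp (-(g a)) * Real.exp (∑ y ∈ s, c y ^ 2 / 2) := by
          refine expect_le_expect fun a _ => ?_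
          rw [← Real.exp_add]
          exact ih _
      _ = (𝔼 a : Ω, Real.exp (-(g a))) * Real.exp (∑ y ∈ s, c y ^ 2 / 2) := by
          rw [expect_mul]
      _ ≤ Real.exp (-(𝔼 a, g a) + c x ^ 2 / 2) * Real.exp (∑ y ∈ s, c y ^ 2 / 2) :=
          mul_le_mul_of_nonneg_right (hoeffding g (c x) hosc) (Real.exp_pos _).le
      _ = _ := by rw [← Real.exp_add, sum_insert hx, add_assoc]

/-- McDiarmid's exponential moment bound on a finite product space. -/
lemma mcdiarmid (f : (ι → Ω) → ℝ) (c : ι → ℝ)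
    (h : ∀ x ω a b, |f (update ω x a) - f (update ω x b)| ≤ c x) :
    𝔼 ω, Real.exp (-(f ω)) ≤ Real.exp (-(𝔼 ω, f ω) + ∑ x, c x ^ 2 / 2) := by
  simpa using mcdiarmid_aux f c h univ (fun _ => Classical.arbitrary Ω)

omit [Nonempty Ω] in
/-- An event whose members are determined by all coordinates but two has probability at most
`|Ω|^{-2}`. -/
lemma card_mul_sq_le (A : Finset (ι → Ω)) {a b : ι} (hab : a ≠ b)
    (h : ∀ ξ ∈ A, ∀ ξ' ∈ A, (∀ z, z ≠ a → z ≠ b → ξ z = ξ' z) → ξ = ξ') :
    #A * Fintype.card Ω ^ 2 ≤ Fintype.card (ι → Ω) := by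
  have : #(A ×ˢ (univ : Finset (Ω × Ω))) ≤ #(univ : Finset (ι → Ω)) := by
    refine card_le_card_of_injOn (fun q => update (update q.1 a q.2.1) b q.2.2)
      (fun _ _ => by simp) ?_
    rintro ⟨ξ, α, β⟩ h1 ⟨ξ', α', β'⟩ h2 he
    simp only [coe_product, coe_univ, Set.mem_prod, mem_coe, Set.mem_univ, and_true] at h1 h2
    have ha := congrFun he a
    have hb := congrFun he b
    simp only [update_of_ne hab, update_self] at ha hb
    have : ξ = ξ' := h ξ h1 ξ' h2 fun z hza hzb => by
      have := congrFun he z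
      simpa [update_of_ne hza, update_of_ne hzb] using this
    rw [this, ha, hb]
  rwa [card_product, card_univ, card_univ, Fintype.card_prod, ← sq] at this

end Product

end Pool.Agent.P.MP_7e54d7_co
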