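import Mathlib

/-!
# Averaging over subsets of a fixed size
-/

open Finset

namespace Pool.Agent.P.MP_7e54d7_co

lemma choose_sub_mul_pow_le {i j : ℕ} (hij : i ≤ j) :
    ∀ r, r ≤ i → (j - r).choose (i - r) * j ^ r ≤ j.choose i * i ^ r := by
  intro r
  induction r with
  | zero => simp
  | succ r ih =>
    intro hr
    have ih := ih (by omega)
    have h1 := Nat.add_one_mul_choose_eq (j - (r + 1)) (i - (r + 1))
    rw [show j - (r + 1) + 1 = j - r by omega, show i - (r + 1) + 1 = i - r by omega] at h1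
    have h2 : (j - (r + 1)).choose (i - (r + 1)) * j ≤ (j - r).choose (i - r) * i := by
      have h3 : (i - r) * j ≤ i * (j - r) := by
        rw [Nat.sub_mul, Nat.mul_sub, mul_comm i r]
        have : r * i ≤ r * j := Nat.mul_le_mul_left r hij
        omega
      refine Nat.le_of_mul_le_mul_left ?_ (show 0 < j - r by omega)
      calc (j - r) * ((j - (r + 1)).choose (i - (r + 1)) * j)
          = (j - r).choose (i - r) * ((i - r) * j) := by rw [← mul_assoc, h1, mul_assoc]
        _ ≤ (j - r).choose (i - r) * (i * (j - r)) := Nat.mul_le_mul_left _ h3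
        _ = _ := by ring
    calc (j - (r + 1)).choose (i - (r + 1)) * j ^ (r + 1)
        = ((j - (r + 1)).choose (i - (r + 1)) * j) * j ^ r := by ring
      _ ≤ ((j - r).choose (i - r) * i) * j ^ r := Nat.mul_le_mul_right _ h2
      _ = ((j - r).choose (i - r) * j ^ r) * i := by ring
      _ ≤ (j.choose i * i ^ r) * i := Nat.mul_le_mul_right _ ih
      _ = _ := by ring

variable {α β : Type*} [DecidableEq α]

lemma card_supersets_le (J : Finset α) {i : ℕ} (hi : i ≤ #J) (hJ : 0 < #J) {τ : Finset α}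
    (hτ : τ ⊆ J) {r : ℕ} (hr : r ≤ #τ) :
    (#{J' ∈ powersetCard i J | τ ⊆ J'} : ℝ) ≤ (#J).choose i * ((i : ℝ) / #J) ^ r := by
  have hJ' : (0 : ℝ) < #J := by exact_mod_cast hJ
  by_cases hri : #τ ≤ i
  swap
  · have : ({J' ∈ powersetCard i J | τ ⊆ J'} : Finset (Finset α)) = ∅ := by
      rw [eq_empty_iff_forall_notMem]
      intro J' hJ'
      rw [mem_filter, mem_powersetCard] at hJ'
      have := card_le_card hJ'.2
      omega
    rw [this, card_empty, Nat.cast_zero]
    positivity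
  have h1 : #{J' ∈ powersetCard i J | τ ⊆ J'} ≤ (#J - #τ).choose (i - #τ) := by
    rw [← card_sdiff_of_subset hτ, ← card_powersetCard]
    refine card_le_card_of_injOn (fun J' => J' \ τ) ?_ ?_
    · intro J' hJ'
      simp only [coe_filter, mem_powersetCard, Set.mem_ofPred_eq, mem_coe] at hJ' ⊢
      exact ⟨sdiff_subset_sdiff hJ'.1.1 Subset.rfl, by rw [card_sdiff_of_subset hJ'.2, hJ'.1.2]⟩
    · intro A hA B hB h
      simp only [coe_filter, Set.mem_ofPred_eq] at hA hB h
      rw [← sdiff_union_of_subset hA.2, ← sdiff_union_of_subset hB.2, h]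
  have h2 := choose_sub_mul_pow_le hi (#τ) hri
  have h3 : (((#J - #τ).choose (i - #τ) : ℕ) : ℝ) ≤ (#J).choose i * ((i : ℝ) / #J) ^ #τ := by
    rw [div_pow, ← mul_div_assoc, le_div_iff₀ (by positivity)]
    exact_mod_cast h2
  refine (Nat.cast_le.2 h1).trans (h3.trans ?_)
  refine mul_le_mul_of_nonneg_left ?_ (by positivity)
  refine pow_le_pow_of_le_one (by positivity) ?_ hr
  rw [div_le_one hJ']
  exact_mod_cast hi

lemma sum_card_supp_le (J : Finset α) {i : ℕ} (hi : i ≤ #J) (hJ : 0 < #J) (T : Finset β)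
    (supp : β → Finset α) {r : ℕ} (h : ∀ τ ∈ T, supp τ ⊆ J ∧ r ≤ #(supp τ)) :
    ∑ J' ∈ powersetCard i J, (#{τ ∈ T | supp τ ⊆ J'} : ℝ) ≤
      (#J).choose i * (#T * ((i : ℝ) / #J) ^ r) := by
  have e : ∑ J' ∈ powersetCard i J, (#{τ ∈ T | supp τ ⊆ J'} : ℝ) =
      ∑ τ ∈ T, (#{J' ∈ powersetCard i J | supp τ ⊆ J'} : ℝ) := by
    simp only [card_filter, Nat.cast_sum]
    rw [sum_comm]
  rw [e]
  refine (sum_le_sum fun τ hτ => card_supersets_le J hi hJ (h τ hτ).1 (h τ hτ).2).trans
    (le_of_eq ?_)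
  rw [sum_const, nsmul_eq_mul]
  ring

end Pool.Agent.P.MP_7e54d7_co
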